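import Pool.Agent.Helper79.AD.CorB

set_option autoImplicit false

/-! # Sub-cubes of a cube of primes without additive relations -/

namespace Pool.Agent.Helper79.AD

open Finset

theorem exists_sub_rel {ι : Type*} [DecidableEq ι] (z : ι → ℤ) (T : Finset ι) (hT : T.Nonempty)
    (hz : ∑ i ∈ T, z i = 0) : ∃ S ⊆ T, S.Nonempty ∧ IsRel S z := by
  classical
  obtain ⟨S, hS, hmin⟩ := Finset.exists_min_image
    (T.powerset.filter (fun S => S.Nonempty ∧ ∑ i ∈ S, z i = 0)) (fun S => S.card)
    ⟨T, by simp [hT, hz]⟩
  rw [mem_filter, mem_powerset] at hS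
  refine ⟨S, hS.1, hS.2.1, hS.2.2, fun U hUS hU hne h0 => ?_⟩
  have h1 := hmin U (by rw [mem_filter, mem_powerset]; exact ⟨hUS.trans hS.1, hU, h0⟩)
  have h2 : U.card < S.card := Finset.card_lt_card (hUS.ssubset_of_ne hne)
  omega

/-- if all minimal relations are constant, the relation holds value by value -/
theorem rel_const {ι : Type*} [DecidableEq ι] (z u : ι → ℤ)
    (h : ∀ S : Finset ι, IsRel S z → ∀ i ∈ S, ∀ j ∈ S, u i = u j) (v : ℤ) :
    ∀ (n : ℕ) (T : Finset ι), T.card = n → ∑ i ∈ T, z i = 0 →
      ∑ i ∈ T.filter (fun i => u i = v), z i = 0 := by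
  intro n
  induction n using Nat.strong_induction_on with
  | _ n ih =>
    intro T hTn hT
    rcases T.eq_empty_or_nonempty with rfl | hne
    · simp
    obtain ⟨S, hST, hS, hrel⟩ := exists_sub_rel z T hne hT
    have h1 : ∑ i ∈ T \ S, z i = 0 := by
      have := Finset.sum_sdiff (f := z) hST
      rw [hrel.1, hT] at this
      simpa using this
    have h2 : (T \ S).card < n := by
      rw [card_sdiff_of_subset hST]
      have := hS.card_pos
      have := Finset.card_le_card hST
      omega
    have h3 := ih _ h2 (T \ S) rfl h1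
    have h4 : ∑ i ∈ S.filter (fun i => u i = v), z i = 0 := by
      obtain ⟨i0, hi0⟩ := hS
      by_cases hv : u i0 = v
      · have : S.filter (fun i => u i = v) = S := by
          rw [filter_eq_self]
          intro i hi
          rw [h S hrel i hi i0 hi0, hv]
        rw [this, hrel.1]
      · have : S.filter (fun i => u i = v) = ∅ := by
          rw [filter_eq_empty_iff]
          intro i hi h5
          exact hv (by rw [← h5, h S hrel i0 hi0 i hi])
        rw [this, sum_empty]
    have h5 : T.filter (fun i => u i = v) =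
        (T \ S).filter (fun i => u i = v) ∪ S.filter (fun i => u i = v) := by
      rw [← filter_union, sdiff_union_of_subset hST]
    rw [h5, sum_union, h3, h4, add_zero]
    rw [disjoint_left]
    intro i hi hi'
    exact (mem_sdiff.1 (mem_filter.1 hi).1).2 (mem_filter.1 hi').1

/-- The sums of `k` divisors of `n` are distinct. -/
def Bk (k n : ℕ) : Prop :=
  ∀ f g : Fin k → ℤ, (∀ i, 0 < f i ∧ f i ∣ (n : ℤ)) → (∀ i, 0 < g i ∧ g i ∣ (n : ℤ)) →
    ∑ i, f i = ∑ i, g i → ∀ v, (univ.filter (fun i => f i = v)).card =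
      (univ.filter (fun i => g i = v)).card

theorem bk_of (k n : ℕ) (hrel : ∀ (S : Finset (Fin k ⊕ Fin k)) (u : Fin k ⊕ Fin k → ℤ),
    (∀ i, 0 < u i ∧ u i ∣ (n : ℤ)) → IsRel S (sv u) → ∀ i ∈ S, ∀ j ∈ S, u i = u j) :
    Bk k n := by
  intro f g hf hg hfg v
  set u : Fin k ⊕ Fin k → ℤ := Sum.elim f g with hu
  have huA : ∀ i, 0 < u i ∧ u i ∣ (n : ℤ) := by
    intro i
    rcases i with i | i
    · exact hf i
    · exact hg i
  have hz0 : ∑ j, sv u j = 0 := by
    rw [Fintype.sum_sum_type]
    simp only [sv, hu, Sum.elim_inl, Sum.elim_inr, Finset.sum_neg_distrib]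
    rw [hfg]; ring
  have h1 := rel_const (sv u) u (fun S hS => hrel S u huA hS) v _ univ rfl hz0
  by_cases hv : 0 < v
  · have h2 : ∑ i ∈ (univ : Finset (Fin k ⊕ Fin k)).filter (fun i => u i = v), sv u i =
        v * ((univ.filter (fun i => f i = v)).card : ℤ) -
        v * ((univ.filter (fun i => g i = v)).card : ℤ) := by
      rw [sum_filter, Fintype.sum_sum_type]
      simp only [sv, hu, Sum.elim_inl, Sum.elim_inr]
      rw [← sum_filter, ← sum_filter]
      have e1 : ∑ i ∈ univ.filter (fun i => f i = v), f i =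
          ∑ _i ∈ univ.filter (fun i => f i = v), v :=
        sum_congr rfl fun i hi => (mem_filter.1 hi).2
      have e2 : ∑ i ∈ univ.filter (fun i => g i = v), -g i =
          ∑ _i ∈ univ.filter (fun i => g i = v), -v :=
        sum_congr rfl fun i hi => by rw [(mem_filter.1 hi).2]
      rw [e1, e2, sum_const, sum_const]
      simp only [nsmul_eq_mul]
      ring
    rw [h2] at h1
    have h3 : v * (((univ.filter (fun i => f i = v)).card : ℤ) -
        ((univ.filter (fun i => g i = v)).card : ℤ)) = 0 := by rw [mul_sub]; exact h1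
    rcases mul_eq_zero.1 h3 with h4 | h4
    · omega
    · exact_mod_cast sub_eq_zero.1 h4
  · have e1 : univ.filter (fun i => f i = v) = ∅ := by
      rw [filter_eq_empty_iff]
      intro i _ h
      exact hv (h ▸ (hf i).1)
    have e2 : univ.filter (fun i => g i = v) = ∅ := by
      rw [filter_eq_empty_iff]
      intro i _ h
      exact hv (h ▸ (hg i).1)
    rw [e1, e2]

/-- the number of `k`-fold sums of a set of divisors of `n` -/
theorem Bk.card (k n : ℕ) (h : Bk k n) (A : Finset ℤ) (hA : ∀ a ∈ A, 0 < a ∧ a ∣ (n : ℤ)) :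
    (ks k A).card = (A.card + k - 1).choose k := by
  classical
  have hrep : ∀ m : Sym {x // x ∈ A} k, ∃ f : Fin k → {x // x ∈ A},
      (univ : Finset (Fin k)).val.map f = m.1 := by
    intro m
    obtain ⟨l, hl⟩ := Quot.exists_rep m.1
    have hl' : (l : Multiset {x // x ∈ A}) = m.1 := hl
    have hlen : l.length = k := by
      have := m.2
      rw [← hl'] at this
      simpa using this
    subst hlen
    refine ⟨l.get, ?_⟩
    rw [Fin.univ_val_map, List.ofFn_get, hl']
  have himg : ks k A = (univ : Finset (Sym {x // x ∈ A} k)).image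
      (fun m => (m.1.map Subtype.val).sum) := by
    ext w
    unfold ks
    rw [mem_image, mem_image]
    constructor
    · rintro ⟨f, hf, rfl⟩
      rw [Fintype.mem_piFinset] at hf
      refine ⟨⟨univ.val.map (fun i => (⟨f i, hf i⟩ : {x // x ∈ A})), by simp⟩, mem_univ _, ?_⟩
      simp only [Multiset.map_map]
      rfl
    · rintro ⟨m, -, rfl⟩
      obtain ⟨f, hf⟩ := hrep m
      refine ⟨fun i => (f i).1, ?_, ?_⟩
      · rw [Fintype.mem_piFinset]
        exact fun i => (f i).2
      · rw [← hf, Multiset.map_map]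
        rfl
  rw [himg, card_image_of_injective, card_univ, Sym.card_sym_eq_choose, Fintype.card_coe]
  intro m m' hmm
  obtain ⟨f, hf⟩ := hrep m
  obtain ⟨g, hg⟩ := hrep m'
  have hsum : ∑ i, (f i).1 = ∑ i, (g i).1 := by
    have h1 : (m.1.map Subtype.val).sum = (m'.1.map Subtype.val).sum := hmm
    rw [← hf, ← hg, Multiset.map_map, Multiset.map_map] at h1
    exact h1
  have hc := h (fun i => (f i).1) (fun i => (g i).1) (fun i => hA _ (f i).2)
    (fun i => hA _ (g i).2) hsum
  have h2 : m.1.map Subtype.val = m'.1.map Subtype.val := by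
    rw [← hf, ← hg, Multiset.map_map, Multiset.map_map]
    ext v
    rw [Multiset.count_map, Multiset.count_map]
    have h3 := hc v
    rw [Finset.card_def, Finset.card_def, Finset.filter_val, Finset.filter_val] at h3
    have e1 : (univ : Finset (Fin k)).val.filter (fun i => v = (Subtype.val ∘ f) i) =
        (univ : Finset (Fin k)).val.filter (fun i => (f i).1 = v) :=
      Multiset.filter_congr fun i _ => eq_comm
    have e2 : (univ : Finset (Fin k)).val.filter (fun i => v = (Subtype.val ∘ g) i) =
        (univ : Finset (Fin k)).val.filter (fun i => (g i).1 = v) :=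
      Multiset.filter_congr fun i _ => eq_comm
    rw [e1, e2]
    exact h3
  exact Subtype.ext (Multiset.map_injective Subtype.val_injective h2)

end Pool.Agent.Helper79.AD
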