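import Pool.Agent.Helper79.AD.Bk

set_option autoImplicit false

/-! # Every set of primes has a large subset whose divisor lattice is a `B_k` set -/

namespace Pool.Agent.Helper79.AD

open Finset

theorem bk_of_not_big (k n : ℕ) (hn : n ≠ 0) (r : ℝ) (hr0 : 0 ≤ r) (hr1 : r ≤ 1 / 2)
    (h : ¬ BigG (Fin k ⊕ Fin k) {1, -1} (rB r) r n) : Bk k n := by
  refine bk_of k n fun S u hu hS i hi j hj => ?_
  set s : Fin k ⊕ Fin k → ℤ := Sum.elim (fun _ => 1) (fun _ => -1) with hs
  have hsv : sv u = fun l => s l * u l := by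
    funext l
    rcases l with l | l
    · simp [sv, hs]
    · simp [sv, hs]
  rw [hsv] at hS
  have hone : ∀ σ, Act S σ → N n S u σ = 1 := by
    intro σ hσ
    by_contra hcon
    apply h
    refine ⟨S, s, u, ?_, hu, hS, σ, hσ, ?_⟩
    · intro l
      rcases l with l | l
      · simp [hs]
      · simp [hs]
    · unfold rB
      rw [if_neg (N_pos n S u σ).ne']
      have h1 : ArithmeticFunction.cardFactors (N n S u σ) ≠ 0 := by
        intro h0
        rw [ArithmeticFunction.cardFactors_eq_zero_iff_eq_zero_or_one] at h0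
        rcases h0 with h0 | h0
        · exact (N_pos n S u σ).ne' h0
        · exact hcon h0
      calc r ^ ArithmeticFunction.cardFactors (N n S u σ) ≤ r ^ 1 :=
            pow_le_pow_of_le_one hr0 (by linarith) (Nat.one_le_iff_ne_zero.2 h1)
        _ = r := pow_one r
  have hpr : ∀ l ∈ S, u l = (N n S u S : ℤ) := by
    intro l hl
    have h1 : (u l).natAbs = N n S u S * pr (act S (N n S u)) l := by
      rw [← pr_eq' S (N n S u) (N_eq_one n S u) l hl]
      unfold pr
      rw [prod_N_mem n hn S u l hl (hu l).2]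
    have h2 : pr (act S (N n S u)) l = 1 := by
      unfold pr
      refine prod_eq_one fun σ _ => ?_
      unfold act
      split_ifs with h3
      · exact hone σ h3
      · rfl
    rw [h2, mul_one] at h1
    rw [← h1, Int.natAbs_of_nonneg (hu l).1.le]
  rw [hpr i hi, hpr j hj]

open Classical in
/-- almost all `t`-subsets of a set of at least `C (t/η)^C` primes are good -/
theorem bk_subsets (k : ℕ) : ∃ C : ℕ, 0 < C ∧ ∀ (P : Finset ℕ) (t : ℕ) (η : ℝ),
    (∀ p ∈ P, p.Prime) → 0 < η → η ≤ 1 → C * (1 / η) ^ C * (t : ℝ) ^ C ≤ P.card →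
    ((((P.powersetCard t).filter (fun D => ¬ Bk k (∏ p ∈ D, p))).card : ℕ) : ℝ) ≤
      η * (P.powersetCard t).card := by
  set s := Fintype.card (Finset (Fin k ⊕ Fin k)) with hs
  set m := Fintype.card (Fin k ⊕ Fin k) with hm
  have hs0 : 0 < s := Fintype.card_pos
  have hs0' : (0 : ℝ) < s := by exact_mod_cast hs0
  obtain ⟨K, hK⟩ : ∃ K : ℝ, K = (s : ℝ) ^ 2 * 2 ^ m * Real.exp 2 ^ s := ⟨_, rfl⟩
  have hK0 : 0 < K := by rw [hK]; positivity
  obtain ⟨c, hc⟩ := exists_nat_ge (K ^ 2)
  obtain ⟨C, hC⟩ : ∃ C : ℕ, C = c + 2 * s + 2 := ⟨_, rfl⟩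
  have hC0 : 0 < C := by omega
  refine ⟨C, hC0, fun P t η hP hη hη1 hPt => ?_⟩
  have hη' : 1 ≤ 1 / η := by rw [le_div_iff₀ hη]; linarith
  obtain ⟨r, hr⟩ : ∃ r : ℝ, r = (t : ℝ) / P.card := ⟨_, rfl⟩
  have hr0 : 0 ≤ r := by rw [hr]; positivity
  have hCc : K ^ 2 ≤ C := hc.trans (by exact_mod_cast (by omega : c ≤ C))
  have hC2 : (2 : ℝ) ≤ C := by exact_mod_cast (by omega : 2 ≤ C)
  have hηC : (1 : ℝ) ≤ (1 / η) ^ C := one_le_pow₀ hη'
  -- bounds for r
  have hbase : (t : ℝ) ≤ P.card ∧ r ≤ 1 / 2 ∧ (t : ℝ) * r ^ (1 / (2 * (s : ℝ))) ≤ 1 ∧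
      K * Real.sqrt r ≤ η := by
    rcases Nat.eq_zero_or_pos t with ht | ht
    · have h0 : r = 0 := by rw [hr, ht]; simp
      rw [h0, ht]
      refine ⟨by simp, by norm_num, by simp, by simp [hη.le]⟩
    · have ht1 : (1 : ℝ) ≤ t := by exact_mod_cast ht
      have ht0 : (0 : ℝ) < t := by linarith
      have hP1 : (C : ℝ) * (t : ℝ) ≤ P.card := by
        refine le_trans ?_ hPt
        calc (C : ℝ) * t = C * 1 * t ^ 1 := by ring
          _ ≤ C * (1 / η) ^ C * (t : ℝ) ^ C :=
            mul_le_mul (mul_le_mul_of_nonneg_left hηC (by positivity))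
              (pow_le_pow_right₀ ht1 hC0) (by positivity) (by positivity)
      have hP0 : (0 : ℝ) < P.card := lt_of_lt_of_le (by positivity) hP1
      have h1 : (t : ℝ) ≤ P.card := by nlinarith
      have h2 : r ≤ 1 / 2 := by
        rw [hr, div_le_iff₀ hP0]
        nlinarith
      have h3 : r ≤ (1 / (t : ℝ)) ^ (2 * s) := by
        rw [hr, div_le_iff₀ hP0, one_div, inv_pow, inv_mul_eq_div, le_div_iff₀ (by positivity)]
        refine le_trans ?_ hPt
        calc (t : ℝ) * t ^ (2 * s) = 1 * 1 * (t : ℝ) ^ (2 * s + 1) := by ring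
          _ ≤ C * (1 / η) ^ C * (t : ℝ) ^ C :=
            mul_le_mul (mul_le_mul (by linarith) hηC zero_le_one (by positivity))
              (pow_le_pow_right₀ ht1 (by omega)) (by positivity) (by positivity)
      have h4 : r ^ (1 / (2 * (s : ℝ))) ≤ 1 / t := by
        calc r ^ (1 / (2 * (s : ℝ))) ≤ ((1 / (t : ℝ)) ^ (2 * s)) ^ (1 / (2 * (s : ℝ))) :=
              Real.rpow_le_rpow hr0 h3 (by positivity)
          _ = 1 / t := by
              rw [← Real.rpow_natCast, ← Real.rpow_mul (by positivity)]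
              push_cast
              rw [mul_one_div_cancel (by positivity), Real.rpow_one]
      have h5 : r ≤ (η / K) ^ 2 := by
        rw [hr, div_le_iff₀ hP0, div_pow, div_mul_eq_mul_div, le_div_iff₀ (by positivity)]
        have h6 : K ^ 2 * (1 / η) ^ 2 * t ≤ P.card := by
          refine le_trans ?_ hPt
          calc K ^ 2 * (1 / η) ^ 2 * t = K ^ 2 * (1 / η) ^ 2 * (t : ℝ) ^ 1 := by ring
            _ ≤ C * (1 / η) ^ C * (t : ℝ) ^ C :=
              mul_le_mul (mul_le_mul hCc (pow_le_pow_right₀ hη' (by omega)) (by positivity)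
                (by positivity)) (pow_le_pow_right₀ ht1 hC0) (by positivity) (by positivity)
        calc (t : ℝ) * K ^ 2 = η ^ 2 * (K ^ 2 * (1 / η) ^ 2 * t) := by
              field_simp
          _ ≤ η ^ 2 * P.card := mul_le_mul_of_nonneg_left h6 (by positivity)
      refine ⟨h1, h2, ?_, ?_⟩
      · calc (t : ℝ) * r ^ (1 / (2 * (s : ℝ))) ≤ t * (1 / t) :=
              mul_le_mul_of_nonneg_left h4 ht0.le
          _ = 1 := by field_simp
      · have h7 : Real.sqrt r ≤ η / K := by
          rw [← Real.sqrt_sq (by positivity : (0 : ℝ) ≤ η / K)]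
          exact Real.sqrt_le_sqrt h5
        calc K * Real.sqrt r ≤ K * (η / K) := mul_le_mul_of_nonneg_left h7 hK0.le
          _ = η := by field_simp
  obtain ⟨htP, hr2, hr3, hr4⟩ := hbase
  have htP' : t ≤ P.card := by exact_mod_cast htP
  -- the counting
  obtain ⟨NN, hNN⟩ : ∃ NN : Finset ℕ, NN = (P.powersetCard t).image (fun D => ∏ p ∈ D, p) :=
    ⟨_, rfl⟩
  have hNNpos : ∀ n ∈ NN, n ≠ 0 := by
    intro n hn
    rw [hNN] at hn
    obtain ⟨D, hD, rfl⟩ := mem_image.1 hn
    exact (Finset.prod_pos fun p hp => (hP p ((mem_powersetCard.1 hD).1 hp)).pos).ne'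
  have hdens : Dens (rB r) := ⟨rB_one r, rB_mul r, fun p hp => by
    rw [rB_prime r p hp]
    exact ⟨hr0, hr2⟩⟩
  have hcnt := card_bigG (ι := Fin k ⊕ Fin k) {1, -1} (rB r) hdens NN hNNpos
    (fun L hL => by
      rw [hNN, hr]
      exact rB_dens P hP t htP' L (Nat.pos_of_ne_zero hL)) r (1 / (2 * (s : ℝ))) hr0
    (by positivity) (by rw [← hs]; field_simp)
  rw [← hs, ← hm] at hcnt
  have hinj : Set.InjOn (fun D : Finset ℕ => ∏ p ∈ D, p) (P.powersetCard t : Set (Finset ℕ)) := by
    intro D hD D' hD' h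
    rw [Finset.mem_coe, mem_powersetCard] at hD hD'
    have h1 := prod_primeFactors D fun p hp => hP p (hD.1 hp)
    have h2 := prod_primeFactors D' fun p hp => hP p (hD'.1 hp)
    have h' : ∏ p ∈ D, p = ∏ p ∈ D', p := h
    rw [← h1, ← h2, h']
  have hNc : NN.card = (P.powersetCard t).card := by
    rw [hNN]
    exact card_image_of_injOn hinj
  have hcard : ∀ F : Finset (Finset ℕ), F ⊆ P.powersetCard t →
      F.card = (F.image (fun D => ∏ p ∈ D, p)).card := fun F hF =>
    (card_image_of_injOn (hinj.mono (by exact_mod_cast hF))).symm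
  have hsub : (((P.powersetCard t).filter (fun D => ¬ Bk k (∏ p ∈ D, p))).image
      (fun D => ∏ p ∈ D, p)) ⊆ NN.filter (fun n => BigG (Fin k ⊕ Fin k) {1, -1} (rB r) r n) := by
    intro n hn
    obtain ⟨D, hD, rfl⟩ := mem_image.1 hn
    obtain ⟨hD1, hD2⟩ := mem_filter.1 hD
    have hmem : ∏ p ∈ D, p ∈ NN := by
      rw [hNN]
      exact mem_image_of_mem _ hD1
    refine mem_filter.2 ⟨hmem, ?_⟩
    by_contra hcon
    exact hD2 (bk_of_not_big k _ (hNNpos _ hmem) r hr0 hr2 hcon)
  have hsum : ∑ p ∈ NN.biUnion Nat.primeFactors, rB r p ^ (1 + 1 / (2 * (s : ℝ))) ≤ 1 := by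
    have h4 : NN.biUnion Nat.primeFactors ⊆ P := by
      intro p hp
      obtain ⟨n, hn, hpn⟩ := mem_biUnion.1 hp
      rw [hNN] at hn
      obtain ⟨D, hD, rfl⟩ := mem_image.1 hn
      have hDP := (mem_powersetCard.1 hD).1
      rw [prod_primeFactors D fun p hp => hP p (hDP hp)] at hpn
      exact hDP hpn
    rcases P.eq_empty_or_nonempty with hPe | hPne
    · have : NN.biUnion Nat.primeFactors = ∅ := by
        rw [← subset_empty]
        exact hPe ▸ h4
      rw [this, sum_empty]
      exact zero_le_one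
    · have hP0 : (0 : ℝ) < P.card := by exact_mod_cast hPne.card_pos
      calc _ ≤ ∑ p ∈ P, rB r p ^ (1 + 1 / (2 * (s : ℝ))) := by
            refine sum_le_sum_of_subset_of_nonneg h4 fun p hp _ => Real.rpow_nonneg ?_ _
            rw [rB_prime _ _ (hP p hp)]
            exact hr0
        _ = ∑ _p ∈ P, r * r ^ (1 / (2 * (s : ℝ))) := by
            refine sum_congr rfl fun p hp => ?_
            rw [rB_prime _ _ (hP p hp)]
            rcases hr0.eq_or_lt with h0 | h0
            · rw [← h0, Real.zero_rpow (by positivity), zero_mul]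
            · rw [Real.rpow_add h0, Real.rpow_one]
        _ = (t : ℝ) * r ^ (1 / (2 * (s : ℝ))) := by
            rw [sum_const, nsmul_eq_mul, ← mul_assoc]
            congr 1
            rw [hr]
            field_simp
        _ ≤ 1 := hr3
  have h1 : ((((P.powersetCard t).filter (fun D => ¬ Bk k (∏ p ∈ D, p))).card : ℕ) : ℝ) ≤
      (((NN.filter (fun n => BigG (Fin k ⊕ Fin k) {1, -1} (rB r) r n)).card : ℕ) : ℝ) := by
    rw [hcard _ (filter_subset _ _)]
    exact Nat.cast_le.2 (card_le_card hsub)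
  refine h1.trans (hcnt.trans ?_)
  rw [hNc]
  have hV : ((({1, -1} : Finset ℤ).card : ℕ) : ℝ) ≤ 2 := by
    have : ({1, -1} : Finset ℤ).card ≤ 2 := card_le_two
    exact_mod_cast this
  have he : Real.exp (2 * ∑ p ∈ NN.biUnion Nat.primeFactors, rB r p ^ (1 + 1 / (2 * (s : ℝ)))) ^ s ≤
      Real.exp 2 ^ s :=
    pow_le_pow_left₀ (Real.exp_pos _).le (Real.exp_le_exp.2 (by linarith)) _
  calc ((P.powersetCard t).card : ℝ) * ((s : ℝ) ^ 2 * ((({1, -1} : Finset ℤ).card : ℕ) : ℝ) ^ m) *
        Real.sqrt r * Real.exp (2 * ∑ p ∈ NN.biUnion Nat.primeFactors,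
          rB r p ^ (1 + 1 / (2 * (s : ℝ)))) ^ s
      ≤ ((P.powersetCard t).card : ℝ) * ((s : ℝ) ^ 2 * 2 ^ m) * Real.sqrt r * Real.exp 2 ^ s := by
        refine mul_le_mul (mul_le_mul_of_nonneg_right (mul_le_mul_of_nonneg_left
          (mul_le_mul_of_nonneg_left (pow_le_pow_left₀ (Nat.cast_nonneg _) hV _) (by positivity))
          (Nat.cast_nonneg _)) (Real.sqrt_nonneg _)) he (by positivity) (by positivity)
    _ = (K * Real.sqrt r) * (P.powersetCard t).card := by rw [hK]; ring
    _ ≤ η * (P.powersetCard t).card := mul_le_mul_of_nonneg_right hr4 (Nat.cast_nonneg _)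

/-- **D1.** -/
theorem bk_divisor (k : ℕ) : ∃ C : ℕ, 0 < C ∧ ∀ n t : ℕ, 0 < n →
    C * t ^ C ≤ n.primeFactors.card → ∃ d, d ∣ n ∧ Squarefree d ∧ d.primeFactors.card = t ∧
      Bk k d := by
  classical
  obtain ⟨C, hC, h⟩ := bk_subsets k
  refine ⟨C * 2 ^ C, by positivity, fun n t hn hnt => ?_⟩
  have hP : ∀ p ∈ n.primeFactors, p.Prime := fun p hp => Nat.prime_of_mem_primeFactors hp
  have h1 := h n.primeFactors t (1 / 2) hP (by norm_num) (by norm_num) (by
    have h2 : ((C * 2 ^ C * t ^ (C * 2 ^ C) : ℕ) : ℝ) ≤ n.primeFactors.card := by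
      exact_mod_cast hnt
    refine le_trans ?_ h2
    push_cast
    rw [one_div_one_div]
    refine mul_le_mul_of_nonneg_left ?_ (by positivity)
    rcases Nat.eq_zero_or_pos t with ht | ht
    · rw [ht, Nat.cast_zero, zero_pow hC.ne', zero_pow (by positivity)]
    · exact pow_le_pow_right₀ (by exact_mod_cast ht) (Nat.le_mul_of_pos_right _ (by positivity)))
  have htc : t ≤ n.primeFactors.card := by
    refine le_trans ?_ hnt
    rcases Nat.eq_zero_or_pos t with ht | ht
    · omega
    · calc t = t ^ 1 := (pow_one t).symm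
        _ ≤ t ^ (C * 2 ^ C) := Nat.pow_le_pow_right ht (Nat.mul_pos hC (by positivity))
        _ ≤ C * 2 ^ C * t ^ (C * 2 ^ C) :=
          Nat.le_mul_of_pos_left _ (Nat.mul_pos hC (by positivity))
  have hpos : 0 < (n.primeFactors.powersetCard t).card := by
    rw [card_powersetCard]
    exact Nat.choose_pos htc
  have h3 : ∃ D ∈ n.primeFactors.powersetCard t, Bk k (∏ p ∈ D, p) := by
    by_contra hcon
    push Not at hcon
    have h4 : (n.primeFactors.powersetCard t).filter (fun D => ¬ Bk k (∏ p ∈ D, p)) =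
        n.primeFactors.powersetCard t := filter_eq_self.2 hcon
    have h5 : ((n.primeFactors.powersetCard t).card : ℝ) ≤
        1 / 2 * (n.primeFactors.powersetCard t).card := by
      refine le_trans (le_of_eq ?_) h1
      congr 1
      refine le_antisymm (card_le_card fun D hD => ?_) (card_le_card (filter_subset _ _))
      exact mem_filter.2 ⟨hD, hcon D hD⟩
    have h6 : (0 : ℝ) < (n.primeFactors.powersetCard t).card := by exact_mod_cast hpos
    linarith
  obtain ⟨D, hD, hbk⟩ := h3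
  rw [mem_powersetCard] at hD
  have hDp : ∀ p ∈ D, p.Prime := fun p hp => hP p (hD.1 hp)
  refine ⟨∏ p ∈ D, p, ?_, sqfree_prod D hDp, ?_, hbk⟩
  · exact (Finset.prod_dvd_prod_of_subset _ _ _ hD.1).trans (Nat.prod_primeFactors_dvd n)
  · rw [prod_primeFactors D hDp, hD.2]

end Pool.Agent.Helper79.AD
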