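import Pool.Agent.Helper79.AD.MainG

set_option autoImplicit false

/-! # Corollary A: the divisors of almost all integers -/

namespace Pool.Agent.Helper79.AD

open Finset

theorem sum_primes_le (θ : ℝ) (hθ : 0 < θ) : ∃ S : ℝ, 0 ≤ S ∧ ∀ P : Finset ℕ,
    ∑ p ∈ P, ((p : ℝ)⁻¹) ^ (1 + θ) ≤ S := by
  have hs : Summable (fun n : ℕ => ((n : ℝ)⁻¹) ^ (1 + θ)) := by
    have h := Real.summable_nat_rpow_inv.2 (by linarith : 1 < 1 + θ)
    refine h.congr fun n => ?_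
    rw [Real.inv_rpow (Nat.cast_nonneg n)]
  refine ⟨∑' n : ℕ, ((n : ℝ)⁻¹) ^ (1 + θ), tsum_nonneg fun n => Real.rpow_nonneg (by positivity) _,
    fun P => ?_⟩
  exact hs.sum_le_tsum P fun n _ => Real.rpow_nonneg (by positivity) _

open Classical in
/-- **Corollary A.** -/
theorem interval (k : ℕ) : ∃ C : ℕ, 0 < C ∧ ∀ (x : ℕ) (W : Finset ℤ) (η : ℝ),
    W.Nonempty → (0 : ℤ) ∉ W → 0 < η → η ≤ 1 →
    ((((Finset.Icc 1 x).filter (fun n => ¬ ∀ (A : Finset ℤ) (M : ℕ),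
      (∀ a ∈ A, ∃ w ∈ W, ∃ d : ℕ, d ∣ n ∧ a = w * d) →
      (∀ d : ℕ, d ∣ n → (A.filter (fun a => ∃ w ∈ W, a = w * (d : ℤ))).card ≤ M) →
      (A.card : ℝ) ^ k ≤ (k.factorial : ℝ) * ((ks k A).card : ℝ) +
        C * ((W.card : ℝ) / η) ^ C * M * (A.card : ℝ) ^ (k - 1))).card : ℕ) : ℝ) ≤ η * x := by
  obtain ⟨C, hC, h⟩ := mainG k
  have hC' : (0 : ℝ) < C := by exact_mod_cast hC
  obtain ⟨S, hS0, hS⟩ := sum_primes_le (1 / (C : ℝ)) (by positivity)
  obtain ⟨C2, hC2⟩ := exists_nat_ge (C * Real.exp (C * S))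
  refine ⟨max C C2, lt_of_lt_of_le hC (le_max_left _ _), fun x W η hW h0 hη hη1 => ?_⟩
  have h2 := h (Finset.Icc 1 x) (fun n => ((n : ℝ))⁻¹) W η (fun n hn => (Finset.mem_Icc.1 hn).1)
    (by simp) (fun a b => by push_cast; rw [mul_inv]) (fun p hp => ⟨by positivity, by
      rw [one_div]
      refine inv_anti₀ two_pos ?_
      exact_mod_cast hp.two_le⟩) (fun L hL => by
      have h3 : ((Finset.Icc 1 x).filter (fun n => L ∣ n)).card = x / L := by
        have := Nat.Ioc_filter_dvd_card_eq_div x L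
        rw [← this]
        congr 1
      rw [h3, Nat.card_Icc, add_tsub_cancel_right, inv_mul_eq_div]
      exact Nat.cast_div_le) hW h0 hη hη1
  rw [Nat.card_Icc, add_tsub_cancel_right] at h2
  refine le_trans ?_ h2
  have hWη : 1 ≤ (W.card : ℝ) / η := by
    rw [le_div_iff₀ hη]
    have : (1 : ℝ) ≤ W.card := by exact_mod_cast hW.card_pos
    linarith
  norm_cast
  refine Finset.card_le_card fun n hn => ?_
  obtain ⟨hn1, hn2⟩ := mem_filter.1 hn
  refine mem_filter.2 ⟨hn1, fun hcon => hn2 fun A M hA hM => (hcon A M hA hM).trans ?_⟩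
  refine add_le_add le_rfl (mul_le_mul_of_nonneg_right (mul_le_mul_of_nonneg_right ?_
    (Nat.cast_nonneg _)) (by positivity))
  have h5 : Real.exp (C * ∑ p ∈ (Finset.Icc 1 x).biUnion Nat.primeFactors,
      ((p : ℝ)⁻¹) ^ (1 + 1 / (C : ℝ))) ≤ Real.exp (C * S) :=
    Real.exp_le_exp.2 (mul_le_mul_of_nonneg_left (hS _) hC'.le)
  calc C * ((W.card : ℝ) / η) ^ C * Real.exp (C * ∑ p ∈ (Finset.Icc 1 x).biUnion Nat.primeFactors,
      ((p : ℝ)⁻¹) ^ (1 + 1 / (C : ℝ)))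
      ≤ C * ((W.card : ℝ) / η) ^ C * Real.exp (C * S) :=
        mul_le_mul_of_nonneg_left h5 (by positivity)
    _ = (C * Real.exp (C * S)) * ((W.card : ℝ) / η) ^ C := by ring
    _ ≤ ((max C C2 : ℕ) : ℝ) * ((W.card : ℝ) / η) ^ (max C C2) := by
        refine mul_le_mul (hC2.trans ?_) (pow_le_pow_right₀ hWη (le_max_left _ _)) (by positivity)
          (Nat.cast_nonneg _)
        exact_mod_cast le_max_right C C2

end Pool.Agent.Helper79.AD
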