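import Pool.Agent.Helper79.AD.MainG

set_option autoImplicit false

/-! # Corollary B: products of `t` primes of a set of at least `C t` primes -/

namespace Pool.Agent.Helper79.AD

open Finset

theorem choose_le (N t : ℕ) (htN : t ≤ N) (j : ℕ) (hj : j ≤ t) :
    (((N - j).choose (t - j) : ℕ) : ℝ) ≤ ((t : ℝ) / N) ^ j * (N.choose t : ℕ) := by
  induction j with
  | zero => simp
  | succ j ih =>
    have ih' := ih (by omega)
    have hN : (0 : ℝ) < N := by
      have : 0 < N := by omega
      exact_mod_cast this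
    have hNj : (0 : ℝ) < ((N - j : ℕ) : ℝ) := by
      have : 0 < N - j := by omega
      exact_mod_cast this
    obtain ⟨a, ha⟩ : ∃ a, N - j = a + 1 := ⟨N - j - 1, by omega⟩
    obtain ⟨b, hb⟩ : ∃ b, t - j = b + 1 := ⟨t - j - 1, by omega⟩
    have e1 : N - (j + 1) = a := by omega
    have e2 : t - (j + 1) = b := by omega
    have h1 : (a + 1) * a.choose b = (a + 1).choose (b + 1) * (b + 1) :=
      Nat.add_one_mul_choose_eq a b
    have h2 : ((a : ℝ) + 1) * (a.choose b : ℕ) = ((a + 1).choose (b + 1) : ℕ) * ((b : ℝ) + 1) := by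
      exact_mod_cast h1
    rw [ha, hb] at ih'
    rw [e1, e2]
    have ha1 : (0 : ℝ) < (a : ℝ) + 1 := by positivity
    have h3 : ((a.choose b : ℕ) : ℝ) = (((a + 1).choose (b + 1) : ℕ) : ℝ) *
        (((b : ℝ) + 1) / ((a : ℝ) + 1)) := by
      field_simp
      linarith
    have hab : (b : ℝ) + 1 = (t : ℝ) - j ∧ (a : ℝ) + 1 = (N : ℝ) - j := by
      constructor
      · have : b + 1 + j = t := by omega
        have : (b : ℝ) + 1 + j = t := by exact_mod_cast this
        linarith
      · have : a + 1 + j = N := by omega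
        have : (a : ℝ) + 1 + j = N := by exact_mod_cast this
        linarith
    have h4 : ((b : ℝ) + 1) / ((a : ℝ) + 1) ≤ (t : ℝ) / N := by
      rw [div_le_div_iff₀ ha1 hN, hab.1, hab.2]
      have h5 : (t : ℝ) ≤ N := by exact_mod_cast htN
      have h6 : (0 : ℝ) ≤ j := Nat.cast_nonneg _
      nlinarith
    rw [h3, pow_succ]
    calc (((a + 1).choose (b + 1) : ℕ) : ℝ) * (((b : ℝ) + 1) / ((a : ℝ) + 1))
        ≤ (((t : ℝ) / N) ^ j * (N.choose t : ℕ)) * ((t : ℝ) / N) :=
          mul_le_mul ih' h4 (by positivity) (by positivity)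
      _ = _ := by ring

theorem count_supersets (P : Finset ℕ) (t : ℕ) (ht : t ≤ P.card) (J : Finset ℕ) :
    ((((P.powersetCard t).filter (fun D => J ⊆ D)).card : ℕ) : ℝ) ≤
      ((t : ℝ) / P.card) ^ J.card * (P.powersetCard t).card := by
  rw [card_powersetCard]
  by_cases hJ : J ⊆ P ∧ J.card ≤ t
  · refine le_trans ?_ (choose_le P.card t ht J.card hJ.2)
    have h1 : ((P.powersetCard t).filter (fun D => J ⊆ D)).card ≤
        ((P \ J).powersetCard (t - J.card)).card := by
      refine Finset.card_le_card_of_injOn (fun D => D \ J) ?_ ?_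
      · intro D hD
        rw [Finset.mem_coe, mem_filter, mem_powersetCard] at hD
        simp only [Finset.mem_coe, mem_powersetCard]
        refine ⟨sdiff_subset_sdiff hD.1.1 (Subset.refl _), ?_⟩
        rw [card_sdiff_of_subset hD.2, hD.1.2]
      · intro D hD D' hD' h
        rw [Finset.mem_coe, mem_filter] at hD hD'
        have h' : D \ J = D' \ J := h
        rw [← sdiff_union_of_subset hD.2, ← sdiff_union_of_subset hD'.2, h']
    rw [card_powersetCard, card_sdiff_of_subset hJ.1] at h1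
    exact_mod_cast h1
  · have h1 : (P.powersetCard t).filter (fun D => J ⊆ D) = ∅ := by
      rw [filter_eq_empty_iff]
      intro D hD hJD
      rw [mem_powersetCard] at hD
      exact hJ ⟨hJD.trans hD.1, (card_le_card hJD).trans hD.2.le⟩
    rw [h1, card_empty, Nat.cast_zero]
    positivity

theorem prod_primeFactors (D : Finset ℕ) (hD : ∀ p ∈ D, p.Prime) :
    (∏ p ∈ D, p).primeFactors = D := Nat.primeFactors_prod hD

theorem sqfree_prod (D : Finset ℕ) (hD : ∀ p ∈ D, p.Prime) : Squarefree (∏ p ∈ D, p) := by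
  induction D using Finset.induction_on with
  | empty => simp
  | insert q D hq ih =>
    rw [prod_insert hq]
    have hqp := hD q (mem_insert_self _ _)
    have hD' : ∀ p ∈ D, p.Prime := fun p hp => hD p (mem_insert_of_mem hp)
    refine (Nat.squarefree_mul ?_).2 ⟨hqp.prime.squarefree, ih hD'⟩
    refine Nat.Coprime.prod_right fun p hp => ?_
    refine (Nat.coprime_primes hqp (hD' p hp)).2 fun h => hq (h ▸ hp)

/-- the density function of Corollary B -/
noncomputable def rB (r : ℝ) (L : ℕ) : ℝ := if L = 0 then 0 else r ^ (ArithmeticFunction.cardFactors L)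

theorem rB_one (r : ℝ) : rB r 1 = 1 := by simp [rB]

theorem rB_mul (r : ℝ) (a b : ℕ) : rB r (a * b) = rB r a * rB r b := by
  unfold rB
  by_cases ha : a = 0
  · simp [ha]
  by_cases hb : b = 0
  · simp [hb]
  rw [if_neg (mul_ne_zero ha hb), if_neg ha, if_neg hb,
    ArithmeticFunction.cardFactors_mul ha hb, pow_add]

theorem rB_prime (r : ℝ) (p : ℕ) (hp : p.Prime) : rB r p = r := by
  unfold rB
  rw [if_neg hp.ne_zero, ArithmeticFunction.cardFactors_apply_prime hp, pow_one]

theorem rB_dens (P : Finset ℕ) (hP : ∀ p ∈ P, p.Prime) (t : ℕ) (ht : t ≤ P.card) (L : ℕ)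
    (hL : 0 < L) :
    (((((P.powersetCard t).image (fun D => ∏ p ∈ D, p)).filter (fun n => L ∣ n)).card : ℕ) : ℝ) ≤
      rB ((t : ℝ) / P.card) L * ((P.powersetCard t).image (fun D => ∏ p ∈ D, p)).card := by
  have hinj : Set.InjOn (fun D : Finset ℕ => ∏ p ∈ D, p) (P.powersetCard t : Set (Finset ℕ)) := by
    intro D hD D' hD' h
    rw [Finset.mem_coe, mem_powersetCard] at hD hD'
    have h1 := prod_primeFactors D fun p hp => hP p (hD.1 hp)
    have h2 := prod_primeFactors D' fun p hp => hP p (hD'.1 hp)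
    have h' : ∏ p ∈ D, p = ∏ p ∈ D', p := h
    rw [← h1, ← h2, h']
  rw [card_image_of_injOn hinj]
  by_cases hsq : Squarefree L
  · have h1 : (((P.powersetCard t).image (fun D => ∏ p ∈ D, p)).filter (fun n => L ∣ n)).card ≤
        ((P.powersetCard t).filter (fun D => L.primeFactors ⊆ D)).card := by
      rw [filter_image]
      refine card_image_le.trans (card_le_card fun D hD => ?_)
      rw [mem_filter] at hD ⊢
      refine ⟨hD.1, ?_⟩
      have h2 := prod_primeFactors D fun p hp => hP p ((mem_powersetCard.1 hD.1).1 hp)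
      rw [← h2]
      refine Nat.primeFactors_mono hD.2 ?_
      exact (sqfree_prod D fun p hp => hP p ((mem_powersetCard.1 hD.1).1 hp)).ne_zero
    have h3 := count_supersets P t ht L.primeFactors
    have h4 : L.primeFactors.card = ArithmeticFunction.cardFactors L := by
      rw [← (ArithmeticFunction.cardDistinctFactors_eq_cardFactors_iff_squarefree hL.ne').2 hsq,
        ArithmeticFunction.cardDistinctFactors_apply, Nat.primeFactors, List.card_toFinset]
    unfold rB
    rw [if_neg hL.ne', ← h4]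
    refine le_trans ?_ h3
    exact_mod_cast h1
  · have h1 : ((P.powersetCard t).image (fun D => ∏ p ∈ D, p)).filter (fun n => L ∣ n) = ∅ := by
      rw [filter_eq_empty_iff]
      intro n hn hLn
      obtain ⟨D, hD, rfl⟩ := mem_image.1 hn
      exact hsq ((sqfree_prod D fun p hp => hP p ((mem_powersetCard.1 hD).1 hp)).squarefree_of_dvd
        hLn)
    rw [h1, card_empty, Nat.cast_zero]
    unfold rB
    rw [if_neg hL.ne']
    positivity

theorem consts (C : ℕ) (hC : 0 < C) (δ : ℝ) (hδ : 0 < δ) : ∃ c : ℝ, 0 < c ∧ c ≤ 1 / 2 ∧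
    (C : ℝ) * c ^ (1 / (C : ℝ)) ≤ δ / 4 ∧
    ∀ t : ℝ, 1 / c ≤ t → Real.log (2 * C) + t * (2 * c * C + δ / 4 + 2 * c) ≤ δ * t := by
  have hC' : (0 : ℝ) < C := by exact_mod_cast hC
  have hC1 : (1 : ℝ) ≤ C := by exact_mod_cast hC
  have hlog : 0 ≤ Real.log (2 * C) := Real.log_nonneg (by linarith)
  set c : ℝ := min (1 / 2) (min (δ / (4 * (2 * C + 2))) (min (δ / (4 * (Real.log (2 * C) + 1)))
    ((δ / (4 * C)) ^ C))) with hc
  have hc0 : 0 < c := by
    rw [hc]
    refine lt_min (by norm_num) (lt_min (by positivity) (lt_min (by positivity) (by positivity)))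
  have h1 : c ≤ 1 / 2 := min_le_left _ _
  have h2 : c ≤ δ / (4 * (2 * C + 2)) := (min_le_right _ _).trans (min_le_left _ _)
  have h3 : c ≤ δ / (4 * (Real.log (2 * C) + 1)) :=
    (min_le_right _ _).trans ((min_le_right _ _).trans (min_le_left _ _))
  have h4 : c ≤ (δ / (4 * C)) ^ C :=
    (min_le_right _ _).trans ((min_le_right _ _).trans (min_le_right _ _))
  refine ⟨c, hc0, h1, ?_, fun t ht => ?_⟩
  · have h5 : c ^ (1 / (C : ℝ)) ≤ δ / (4 * C) := by
      calc c ^ (1 / (C : ℝ)) ≤ ((δ / (4 * C)) ^ C) ^ (1 / (C : ℝ)) :=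
            Real.rpow_le_rpow hc0.le h4 (by positivity)
        _ = δ / (4 * C) := by
            rw [← Real.rpow_natCast, ← Real.rpow_mul (by positivity), mul_one_div_cancel hC'.ne',
              Real.rpow_one]
    calc (C : ℝ) * c ^ (1 / (C : ℝ)) ≤ C * (δ / (4 * C)) := mul_le_mul_of_nonneg_left h5 hC'.le
      _ = δ / 4 := by field_simp
  · have ht0 : 0 < t := lt_of_lt_of_le (by positivity) ht
    have h6 : 1 ≤ t * c := by
      rw [div_le_iff₀ hc0] at ht
      exact ht
    have h7 : c * (4 * (2 * C + 2)) ≤ δ := by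
      rwa [le_div_iff₀ (by positivity)] at h2
    have h8 : c * (4 * (Real.log (2 * C) + 1)) ≤ δ := by
      rwa [le_div_iff₀ (by positivity)] at h3
    have h9 : Real.log (2 * C) ≤ δ / 4 * t := by
      have e1 : c * Real.log (2 * C) ≤ δ / 4 := by nlinarith
      calc Real.log (2 * C) = 1 * Real.log (2 * C) := (one_mul _).symm
        _ ≤ (t * c) * Real.log (2 * C) := mul_le_mul_of_nonneg_right h6 hlog
        _ = t * (c * Real.log (2 * C)) := by ring
        _ ≤ t * (δ / 4) := mul_le_mul_of_nonneg_left e1 ht0.le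
        _ = δ / 4 * t := by ring
    have h10 : t * (2 * c * C + δ / 4 + 2 * c) ≤ t * (δ / 4 + δ / 4) := by
      refine mul_le_mul_of_nonneg_left ?_ ht0.le
      nlinarith
    nlinarith

open Classical in
/-- **Corollary B.** -/
theorem subsets (k : ℕ) (hk : 1 ≤ k) (δ : ℝ) (hδ : 0 < δ) : ∃ c : ℝ, 0 < c ∧
    ∀ (P : Finset ℕ) (t : ℕ) (W : Finset ℤ), (∀ p ∈ P, p.Prime) → 1 / c ≤ t →
    (t : ℝ) ≤ c * P.card → W.Nonempty → (0 : ℤ) ∉ W → (W.card : ℝ) ≤ Real.exp (c * t) →
    ((((P.powersetCard t).filter (fun D => ¬ ∀ A : Finset ℤ,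
      (∀ a ∈ A, ∃ w ∈ W, ∃ d : ℕ, d ∣ ∏ p ∈ D, p ∧ a = w * d) → Real.exp (δ * t) ≤ A.card →
      (A.card : ℝ) ^ k ≤ (1 + Real.exp (-(c * t))) * ((k.factorial : ℝ) *
        ((ks k A).card : ℝ)))).card : ℕ) : ℝ) ≤
      Real.exp (-(c * t)) * (P.powersetCard t).card := by
  obtain ⟨C, hC, h⟩ := mainG k
  have hC' : (0 : ℝ) < C := by exact_mod_cast hC
  obtain ⟨c, hc0, hc1, hc2, hc3⟩ := consts C hC δ hδ
  refine ⟨c, hc0, fun P t W hP ht htP hW h0 hWc => ?_⟩
  have ht0 : (0 : ℝ) < t := lt_of_lt_of_le (by positivity) ht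
  have hP0 : (0 : ℝ) < P.card := by
    by_contra hneg
    have : c * (P.card : ℝ) ≤ 0 := mul_nonpos_of_nonneg_of_nonpos hc0.le (not_lt.1 hneg)
    linarith
  have htP' : (t : ℝ) / P.card ≤ c := by rwa [div_le_iff₀ hP0]
  have htP2 : t ≤ P.card := by
    have h1 : (t : ℝ) ≤ P.card := htP.trans (by nlinarith)
    exact_mod_cast h1
  have hx0 : 0 < Real.exp (-(c * t)) := Real.exp_pos _
  have hx1 : Real.exp (-(c * t)) ≤ 1 := Real.exp_le_one_iff.2 (by
    have : 0 ≤ c * t := by positivity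
    linarith)
  have h2 := h ((P.powersetCard t).image (fun D => ∏ p ∈ D, p)) (rB ((t : ℝ) / P.card)) W
    (Real.exp (-(c * t)))
    (fun n hn => by
      obtain ⟨D, hD, rfl⟩ := mem_image.1 hn
      exact Finset.prod_pos fun p hp => (hP p ((mem_powersetCard.1 hD).1 hp)).pos)
    (rB_one _) (rB_mul _)
    (fun p hp => by
      rw [rB_prime _ _ hp]
      exact ⟨by positivity, htP'.trans hc1⟩)
    (rB_dens P hP t htP2) hW h0 hx0 hx1
  have hinj : Set.InjOn (fun D : Finset ℕ => ∏ p ∈ D, p) (P.powersetCard t : Set (Finset ℕ)) := by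
    intro D hD D' hD' h
    rw [Finset.mem_coe, mem_powersetCard] at hD hD'
    have h1 := prod_primeFactors D fun p hp => hP p (hD.1 hp)
    have h2 := prod_primeFactors D' fun p hp => hP p (hD'.1 hp)
    have h' : ∏ p ∈ D, p = ∏ p ∈ D', p := h
    rw [← h1, ← h2, h']
  rw [card_image_of_injOn hinj] at h2
  refine le_trans ?_ h2
  have hcard : ∀ F : Finset (Finset ℕ), F ⊆ P.powersetCard t →
      F.card = (F.image (fun D => ∏ p ∈ D, p)).card := fun F hF =>
    (card_image_of_injOn (hinj.mono (by exact_mod_cast hF))).symm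
  rw [hcard _ (filter_subset _ _)]
  refine Nat.cast_le.2 ?_
  refine card_le_card fun n hn => ?_
  obtain ⟨D, hD, rfl⟩ := mem_image.1 hn
  obtain ⟨hD1, hD2⟩ := mem_filter.1 hD
  refine mem_filter.2 ⟨mem_image_of_mem _ hD1, fun hcon => hD2 fun A hA hAc => ?_⟩
  have h3 := hcon A W.card hA (fun d hd => by
    refine (card_le_card (t := W.image (fun w => w * (d : ℤ))) fun a ha => ?_).trans card_image_le
    obtain ⟨w, hw, rfl⟩ := (mem_filter.1 ha).2
    exact mem_image_of_mem _ hw)
  have hsum : ∑ p ∈ ((P.powersetCard t).image (fun D => ∏ p ∈ D, p)).biUnion Nat.primeFactors,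
      rB ((t : ℝ) / P.card) p ^ (1 + 1 / (C : ℝ)) ≤ t * c ^ (1 / (C : ℝ)) := by
    have h4 : ((P.powersetCard t).image (fun D => ∏ p ∈ D, p)).biUnion Nat.primeFactors ⊆ P := by
      intro p hp
      obtain ⟨n, hn, hpn⟩ := mem_biUnion.1 hp
      obtain ⟨D, hD, rfl⟩ := mem_image.1 hn
      have hDP := (mem_powersetCard.1 hD).1
      rw [prod_primeFactors D fun p hp => hP p (hDP hp)] at hpn
      exact hDP hpn
    have h5 : ∀ p ∈ P, rB ((t : ℝ) / P.card) p ^ (1 + 1 / (C : ℝ)) ≤
        (t : ℝ) / P.card * c ^ (1 / (C : ℝ)) := by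
      intro p hp
      rw [rB_prime _ _ (hP p hp), Real.rpow_add (by positivity), Real.rpow_one]
      exact mul_le_mul_of_nonneg_left (Real.rpow_le_rpow (by positivity) htP' (by positivity))
        (by positivity)
    calc _ ≤ ∑ p ∈ P, rB ((t : ℝ) / P.card) p ^ (1 + 1 / (C : ℝ)) := by
          refine sum_le_sum_of_subset_of_nonneg h4 fun p hp _ => Real.rpow_nonneg ?_ _
          rw [rB_prime _ _ (hP p hp)]
          positivity
      _ ≤ ∑ _p ∈ P, (t : ℝ) / P.card * c ^ (1 / (C : ℝ)) := sum_le_sum h5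
      _ = t * c ^ (1 / (C : ℝ)) := by
          rw [sum_const, nsmul_eq_mul]
          field_simp
  have hA0 : (0 : ℝ) < A.card := lt_of_lt_of_le (Real.exp_pos _) hAc
  have herr : C * ((W.card : ℝ) / Real.exp (-(c * t))) ^ C *
        Real.exp (C * ∑ p ∈ ((P.powersetCard t).image (fun D => ∏ p ∈ D, p)).biUnion
          Nat.primeFactors, rB ((t : ℝ) / P.card) p ^ (1 + 1 / (C : ℝ))) *
        W.card ≤ Real.exp (-(c * t)) / 2 * A.card := by
    have e1 : (W.card : ℝ) / Real.exp (-(c * t)) ≤ Real.exp (2 * c * t) := by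
      rw [div_le_iff₀ hx0, ← Real.exp_add]
      refine hWc.trans (Real.exp_le_exp.2 (by linarith))
    have e2 : ((W.card : ℝ) / Real.exp (-(c * t))) ^ C ≤ Real.exp (C * (2 * c * t)) := by
      rw [Real.exp_nat_mul]
      exact pow_le_pow_left₀ (by positivity) e1 _
    have e3 : Real.exp (C * ∑ p ∈ ((P.powersetCard t).image (fun D => ∏ p ∈ D, p)).biUnion
          Nat.primeFactors, rB ((t : ℝ) / P.card) p ^ (1 + 1 / (C : ℝ))) ≤
        Real.exp (t * (δ / 4)) := by
      refine Real.exp_le_exp.2 ?_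
      calc _ ≤ (C : ℝ) * (t * c ^ (1 / (C : ℝ))) := mul_le_mul_of_nonneg_left hsum hC'.le
        _ = t * (C * c ^ (1 / (C : ℝ))) := by ring
        _ ≤ t * (δ / 4) := mul_le_mul_of_nonneg_left hc2 ht0.le
    have e4 : (C : ℝ) = Real.exp (Real.log (2 * C)) / 2 := by
      rw [Real.exp_log (by positivity)]
      ring
    calc C * ((W.card : ℝ) / Real.exp (-(c * t))) ^ C *
        Real.exp (C * ∑ p ∈ ((P.powersetCard t).image (fun D => ∏ p ∈ D, p)).biUnion
          Nat.primeFactors, rB ((t : ℝ) / P.card) p ^ (1 + 1 / (C : ℝ))) * W.card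
        ≤ C * Real.exp (C * (2 * c * t)) * Real.exp (t * (δ / 4)) * Real.exp (c * t) := by
          refine mul_le_mul (mul_le_mul (mul_le_mul_of_nonneg_left e2 hC'.le) e3
            (Real.exp_pos _).le (by positivity)) hWc (Nat.cast_nonneg _) (by positivity)
      _ = Real.exp (Real.log (2 * C) + t * (2 * c * C + δ / 4 + 2 * c) + -(c * t)) / 2 := by
          conv_lhs => rw [e4]
          rw [Real.exp_log (by positivity : (0 : ℝ) < 2 * C)]
          rw [Real.exp_add, Real.exp_add, Real.exp_log (by positivity : (0 : ℝ) < 2 * C)]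
          have e5 : Real.exp (t * (2 * c * C + δ / 4 + 2 * c)) * Real.exp (-(c * t)) =
              Real.exp (C * (2 * c * t)) * Real.exp (t * (δ / 4)) * Real.exp (c * t) := by
            rw [← Real.exp_add, ← Real.exp_add, ← Real.exp_add]
            congr 1
            ring
          rw [mul_assoc (2 * (C : ℝ)), e5]
          ring
      _ ≤ Real.exp (δ * t + -(c * t)) / 2 := by
          have := hc3 t ht
          gcongr
      _ = Real.exp (-(c * t)) / 2 * Real.exp (δ * t) := by rw [Real.exp_add]; ring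
      _ ≤ Real.exp (-(c * t)) / 2 * A.card := mul_le_mul_of_nonneg_left hAc (by positivity)
  have hAk : (A.card : ℝ) * (A.card : ℝ) ^ (k - 1) = (A.card : ℝ) ^ k := by
    rw [← pow_succ', Nat.sub_add_cancel hk]
  have h6 : (A.card : ℝ) ^ k ≤ (k.factorial : ℝ) * ((ks k A).card : ℝ) +
      Real.exp (-(c * t)) / 2 * (A.card : ℝ) ^ k := by
    refine h3.trans (add_le_add le_rfl ?_)
    rw [← hAk, ← mul_assoc]
    exact mul_le_mul_of_nonneg_right herr (by positivity)
  have hpos : 0 < (A.card : ℝ) ^ k := by positivity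
  set x := Real.exp (-(c * t))
  have h7 : (1 - x / 2) * (A.card : ℝ) ^ k ≤ (k.factorial : ℝ) * ((ks k A).card : ℝ) := by linarith
  have h8 : 1 ≤ (1 + x) * (1 - x / 2) := by nlinarith
  calc (A.card : ℝ) ^ k = 1 * (A.card : ℝ) ^ k := (one_mul _).symm
    _ ≤ ((1 + x) * (1 - x / 2)) * (A.card : ℝ) ^ k := mul_le_mul_of_nonneg_right h8 hpos.le
    _ = (1 + x) * ((1 - x / 2) * (A.card : ℝ) ^ k) := by ring
    _ ≤ (1 + x) * ((k.factorial : ℝ) * ((ks k A).card : ℝ)) :=
        mul_le_mul_of_nonneg_left h7 (by linarith)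

end Pool.Agent.Helper79.AD
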