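import Mathlib

set_option autoImplicit false

/-! # Completely multiplicative densities -/

namespace Pool.Agent.Helper79.AD

open Finset

/-- `ρ` is completely multiplicative with `0 ≤ ρ(p) ≤ 1/2`. -/
structure Dens (ρ : ℕ → ℝ) : Prop where
  one : ρ 1 = 1
  mul : ∀ a b, ρ (a * b) = ρ a * ρ b
  pr : ∀ p, p.Prime → 0 ≤ ρ p ∧ ρ p ≤ 1 / 2

variable {ρ : ℕ → ℝ}

theorem Dens.zero (h : Dens ρ) : ρ 0 = 0 := by
  have h1 := h.mul 0 2
  have h2 := (h.pr 2 Nat.prime_two).2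
  rw [zero_mul] at h1
  by_contra h0
  have : (1 : ℝ) = ρ 2 := by
    have h3 : ρ 0 * 1 = ρ 0 * ρ 2 := by rw [mul_one]; exact h1
    exact mul_left_cancel₀ h0 h3
  linarith

theorem Dens.bd (h : Dens ρ) (n : ℕ) : 0 ≤ ρ n ∧ ρ n ≤ 1 := by
  induction n using induction_on_primes with
  | zero => rw [h.zero]; norm_num
  | one => rw [h.one]; norm_num
  | prime_mul p a hp ih =>
    have h1 := h.pr p hp
    rw [h.mul]
    exact ⟨mul_nonneg h1.1 ih.1, by nlinarith [h1.1, h1.2, ih.1, ih.2]⟩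

theorem Dens.prod (h : Dens ρ) {α : Type*} (s : Finset α) (f : α → ℕ) :
    ρ (∏ i ∈ s, f i) = ∏ i ∈ s, ρ (f i) := by
  classical
  induction s using Finset.induction_on with
  | empty => simp [h.one]
  | insert a s ha ih => rw [Finset.prod_insert ha, Finset.prod_insert ha, h.mul, ih]

/-- The power `ρ^(1+θ)` as a monoid homomorphism. -/
noncomputable def Dens.hom (h : Dens ρ) (θ : ℝ) : ℕ →* ℝ where
  toFun n := ρ n ^ (1 + θ)
  map_one' := by rw [h.one, Real.one_rpow]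
  map_mul' a b := by rw [h.mul, Real.mul_rpow (h.bd a).1 (h.bd b).1]

theorem Dens.sum_le (h : Dens ρ) (θ : ℝ) (hθ : 0 ≤ θ) (P D : Finset ℕ) (hP : ∀ p ∈ P, p.Prime)
    (hD : ∀ d ∈ D, d ≠ 0 ∧ d.primeFactors ⊆ P) :
    ∑ d ∈ D, ρ d ^ (1 + θ) ≤ Real.exp (2 * ∑ p ∈ P, ρ p ^ (1 + θ)) := by
  classical
  have hle : ∀ p, p.Prime → ρ p ^ (1 + θ) ≤ 1 / 2 := by
    intro p hp
    have h1 := h.pr p hp
    calc ρ p ^ (1 + θ) ≤ ρ p ^ (1 : ℝ) := by
          rcases h1.1.eq_or_lt with h2 | h2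
          · rw [← h2, Real.zero_rpow (by linarith), Real.rpow_one]
          · exact Real.rpow_le_rpow_of_exponent_ge h2 (by linarith) (by linarith)
      _ ≤ 1 / 2 := by rw [Real.rpow_one]; exact h1.2
  have hnn : ∀ n, 0 ≤ ρ n ^ (1 + θ) := fun n => Real.rpow_nonneg (h.bd n).1 _
  obtain ⟨-, hs⟩ := EulerProduct.summable_and_hasSum_factoredNumbers_prod_filter_prime_geometric
    (f := h.hom θ) (by
      intro p hp
      change ‖ρ p ^ (1 + θ)‖ < 1
      rw [Real.norm_of_nonneg (hnn p)]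
      linarith [hle p hp]) P
  have h1 : ∑ d ∈ D, ρ d ^ (1 + θ) ≤ ∏ p ∈ P with p.Prime, (1 - h.hom θ p)⁻¹ := by
    have h2 := sum_le_hasSum (D.subtype (fun d => d ∈ Nat.factoredNumbers P))
      (fun i _ => hnn i) hs
    have h3 : ∑ d ∈ D.subtype (fun d => d ∈ Nat.factoredNumbers P), h.hom θ d =
        ∑ d ∈ D, ρ d ^ (1 + θ) := by
      rw [Finset.sum_subtype_of_mem (fun d => h.hom θ d)]
      · rfl
      · intro d hd
        exact Nat.mem_factoredNumbers_iff_primeFactors_subset.2 (hD d hd)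
    rw [← h3]; exact h2
  refine h1.trans ?_
  have h4 : (P.filter (fun p => p.Prime)) = P := Finset.filter_true_of_mem hP
  rw [h4, Finset.mul_sum, Real.exp_sum]
  refine Finset.prod_le_prod (fun p hp => ?_) (fun p hp => ?_)
  · change 0 ≤ (1 - ρ p ^ (1 + θ))⁻¹
    rw [inv_nonneg]; linarith [hle p (hP p hp)]
  · change (1 - ρ p ^ (1 + θ))⁻¹ ≤ Real.exp (2 * ρ p ^ (1 + θ))
    set u := ρ p ^ (1 + θ) with hu
    have hu0 : 0 ≤ u := hnn p
    have hu1 : u ≤ 1 / 2 := hle p (hP p hp)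
    calc (1 - u)⁻¹ ≤ 1 + 2 * u := by
          rw [inv_le_iff_one_le_mul₀ (by linarith)]
          nlinarith
      _ ≤ Real.exp (2 * u) := by
          have := Real.add_one_le_exp (2 * u)
          linarith

end Pool.Agent.Helper79.AD
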