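import Pool.Agent.Helper79.AD.Det
import Pool.Agent.Helper79.AD.Euler

set_option autoImplicit false
set_option linter.unusedSectionVars false

/-! # Few integers of a family have a relation with an improbable factor -/

namespace Pool.Agent.Helper79.AD

open Finset

/-- `n` has a relation `∑_{i ∈ S} s i * D i = 0`, `s i ∈ V`, `D i ∣ n`, with an active factor of
density at most `ζ`. -/
def BigG (ι : Type*) [Fintype ι] [DecidableEq ι] (V : Finset ℤ) (ρ : ℕ → ℝ) (ζ : ℝ) (n : ℕ) :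
    Prop :=
  ∃ (S : Finset ι) (s D : ι → ℤ), (∀ i, s i ∈ V) ∧ (∀ i, 0 < D i ∧ D i ∣ (n : ℤ)) ∧
    IsRel S (fun i => s i * D i) ∧ ∃ σ, Act S σ ∧ ρ (N n S D σ) ≤ ζ

variable {ι : Type*} [Fintype ι] [DecidableEq ι]

theorem bigG_mem (V : Finset ℤ) (ρ : ℕ → ℝ) (hρ : Dens ρ) (ζ : ℝ) (n : ℕ) (hn : n ≠ 0)
    (h : BigG ι V ρ ζ n) :
    ∃ (S : Finset ι) (s : ι → ℤ) (σ₀ : Finset ι) (r : Finset ι → ℕ),
      (∀ i, s i ∈ V) ∧ (∀ σ, r σ ∣ n) ∧
      0 < F S s σ₀ r ∧ ρ (F S s σ₀ r) ≤ ζ ∧ (∀ σ, ρ (F S s σ₀ r) ≤ ρ (r σ)) ∧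
      (F S s σ₀ r * ∏ σ, r σ) ∣ n := by
  classical
  obtain ⟨S, s, D, hs, hD, hrel, σ₁, hσ₁, hζ⟩ := h
  obtain ⟨σ₀, hσ₀, hmin⟩ := Finset.exists_min_image
    ((univ : Finset (Finset ι)).filter (fun σ => Act S σ)) (fun σ => ρ (N n S D σ))
    ⟨σ₁, by simp [hσ₁]⟩
  have hact : Act S σ₀ := (mem_filter.1 hσ₀).2
  have hmin' : ∀ σ, Act S σ → ρ (N n S D σ₀) ≤ ρ (N n S D σ) := fun σ hσ => hmin σ (by simp [hσ])
  set r := rest S σ₀ (N n S D) with hr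
  have hz : ∀ i ∈ S, s i * D i = s i * (pr (N n S D) i : ℤ) := by
    intro i hi
    congr 1
    unfold pr
    rw [prod_N_mem n hn S D i hi (hD i).2, Int.natAbs_of_nonneg (hD i).1.le]
  have hF : F S s σ₀ r = N n S D σ₀ :=
    det S σ₀ s (N n S D) (N_eq_one n S D) (N_pos n S D) (fun i => s i * D i) hz hrel hact
  have hdvd : ∀ σ, N n S D σ ∣ n := by
    intro σ
    conv_rhs => rw [← prod_N n hn S D]
    exact Finset.dvd_prod_of_mem _ (mem_univ σ)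
  have hr1 : ∀ σ, r σ ∣ N n S D σ := by
    intro σ
    rw [hr]; unfold rest
    split_ifs
    · exact dvd_rfl
    · exact one_dvd _
  refine ⟨S, s, σ₀, r, hs, fun σ => (hr1 σ).trans (hdvd σ), ?_, ?_, ?_, ?_⟩
  · rw [hF]; exact N_pos _ _ _ _
  · rw [hF]; exact (hmin' σ₁ hσ₁).trans hζ
  · intro σ
    rw [hF, hr]; unfold rest
    split_ifs with h
    · exact hmin' σ h.1
    · rw [hρ.one]; exact (hρ.bd _).2
  · rw [hF]
    conv_rhs => rw [← prod_N n hn S D]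
    rw [← Finset.mul_prod_erase univ (fun σ => N n S D σ) (mem_univ σ₀)]
    refine Nat.mul_dvd_mul_left _ ?_
    rw [← Finset.mul_prod_erase univ (fun σ => r σ) (mem_univ σ₀)]
    have : r σ₀ = 1 := by rw [hr]; unfold rest; simp
    rw [this, one_mul]
    exact Finset.prod_dvd_prod_of_dvd _ _ fun σ _ => hr1 σ

open Classical in
theorem card_bigG (V : Finset ℤ) (ρ : ℕ → ℝ) (hρ : Dens ρ) (NN : Finset ℕ)
    (hNN : ∀ n ∈ NN, n ≠ 0)
    (hdens : ∀ L : ℕ, L ≠ 0 → (((NN.filter (fun n => L ∣ n)).card : ℕ) : ℝ) ≤ ρ L * NN.card)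
    (ζ θ : ℝ) (hζ : 0 ≤ ζ) (hθ : 0 < θ) (hθ1 : 2 * θ * Fintype.card (Finset ι) = 1) :
    (((NN.filter (fun n => BigG ι V ρ ζ n)).card : ℕ) : ℝ) ≤
      NN.card * ((Fintype.card (Finset ι) : ℝ) ^ 2 * (V.card : ℝ) ^ Fintype.card ι) *
        Real.sqrt ζ *
        Real.exp (2 * ∑ p ∈ NN.biUnion Nat.primeFactors, ρ p ^ (1 + θ)) ^
          Fintype.card (Finset ι) := by
  set s := Fintype.card (Finset ι) with hs
  set P := NN.biUnion Nat.primeFactors with hP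
  set DD := NN.biUnion Nat.divisors with hDD
  set E := Real.exp (2 * ∑ p ∈ P, ρ p ^ (1 + θ)) with hE
  set RR : Finset (Finset ι → ℕ) := Fintype.piFinset (fun _ : Finset ι => DD) with hRR
  set VV : Finset (ι → ℤ) := Fintype.piFinset (fun _ : ι => V) with hVV
  have hnn : ∀ n, 0 ≤ ρ n := fun n => (hρ.bd n).1
  -- codes
  set CC : Finset (Finset ι × (ι → ℤ) × Finset ι) := univ ×ˢ VV ×ˢ univ with hCC
  have hCCcard : (CC.card : ℝ) = (s : ℝ) ^ 2 * (V.card : ℝ) ^ Fintype.card ι := by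
    rw [hCC, Finset.card_product, Finset.card_product, hVV, Fintype.card_piFinset]
    simp only [Finset.card_univ, Finset.prod_const]
    rw [← hs]; push_cast; ring
  have hsub : NN.filter (fun n => BigG ι V ρ ζ n) ⊆
      CC.biUnion (fun c =>
        (RR.filter (fun r => 0 < F c.1 c.2.1 c.2.2 r ∧ ρ (F c.1 c.2.1 c.2.2 r) ≤ ζ ∧
          ∀ σ, ρ (F c.1 c.2.1 c.2.2 r) ≤ ρ (r σ))).biUnion (fun r =>
          NN.filter (fun n => (F c.1 c.2.1 c.2.2 r * ∏ σ, r σ) ∣ n))) := by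
    intro n hn
    obtain ⟨hn1, hn2⟩ := Finset.mem_filter.1 hn
    obtain ⟨S, v, σ₀, r, hv, hr, h1, h2, h3, h4⟩ := bigG_mem V ρ hρ ζ n (hNN n hn1) hn2
    refine Finset.mem_biUnion.2 ⟨(S, v, σ₀), ?_, Finset.mem_biUnion.2 ⟨r, ?_, ?_⟩⟩
    · rw [hCC, Finset.mem_product, Finset.mem_product]
      exact ⟨mem_univ _, Fintype.mem_piFinset.2 hv, mem_univ _⟩
    · refine Finset.mem_filter.2 ⟨?_, h1, h2, h3⟩
      rw [hRR, Fintype.mem_piFinset]
      intro σ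
      exact Finset.mem_biUnion.2 ⟨n, hn1, Nat.mem_divisors.2 ⟨hr σ, hNN n hn1⟩⟩
    · exact Finset.mem_filter.2 ⟨hn1, h4⟩
  have hDpos : ∀ d ∈ DD, 0 < d := by
    intro d hd
    obtain ⟨n, -, hd'⟩ := Finset.mem_biUnion.1 hd
    exact Nat.pos_of_mem_divisors hd'
  have hone : ∀ c ∈ CC, ∀ r ∈ RR.filter (fun r => 0 < F c.1 c.2.1 c.2.2 r ∧
      ρ (F c.1 c.2.1 c.2.2 r) ≤ ζ ∧ ∀ σ, ρ (F c.1 c.2.1 c.2.2 r) ≤ ρ (r σ)),
      (((NN.filter (fun n => (F c.1 c.2.1 c.2.2 r * ∏ σ, r σ) ∣ n)).card : ℕ) : ℝ) ≤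
      NN.card * Real.sqrt ζ * ∏ σ, ρ (r σ) ^ (1 + θ) := by
    intro c _ r hr
    obtain ⟨hr1, hr2, hr3, hr4⟩ := Finset.mem_filter.1 hr
    set M := F c.1 c.2.1 c.2.2 r with hM
    have hrpos : ∀ σ, 0 < r σ := fun σ => hDpos _ (Fintype.mem_piFinset.1 hr1 σ)
    have hP0 : 0 < ∏ σ, r σ := Finset.prod_pos fun σ _ => hrpos σ
    refine (hdens _ (Nat.mul_pos hr2 hP0).ne').trans ?_
    rw [hρ.mul, hρ.prod, mul_comm _ (NN.card : ℝ), mul_assoc]
    refine mul_le_mul_of_nonneg_left ?_ (Nat.cast_nonneg _)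
    have h1 : ρ M ≤ Real.sqrt ζ * ∏ σ, ρ (r σ) ^ θ := by
      have h2 : Real.sqrt (ρ M) ≤ ∏ σ, ρ (r σ) ^ θ := by
        calc Real.sqrt (ρ M) = ∏ _σ : Finset ι, ρ M ^ θ := by
              rw [Finset.prod_const, Finset.card_univ, ← hs, ← Real.rpow_natCast,
                ← Real.rpow_mul (hnn M), Real.sqrt_eq_rpow]
              congr 1
              linarith
          _ ≤ ∏ σ, ρ (r σ) ^ θ :=
              Finset.prod_le_prod (fun σ _ => Real.rpow_nonneg (hnn M) _)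
                (fun σ _ => Real.rpow_le_rpow (hnn M) (hr4 σ) hθ.le)
      calc ρ M = Real.sqrt (ρ M) * Real.sqrt (ρ M) := (Real.mul_self_sqrt (hnn M)).symm
        _ ≤ Real.sqrt ζ * ∏ σ, ρ (r σ) ^ θ :=
            mul_le_mul (Real.sqrt_le_sqrt hr3) h2 (Real.sqrt_nonneg _) (Real.sqrt_nonneg _)
    have h3 : ∏ σ, ρ (r σ) ^ (1 + θ) = (∏ σ, ρ (r σ)) * ∏ σ, ρ (r σ) ^ θ := by
      rw [← Finset.prod_mul_distrib]
      refine Finset.prod_congr rfl fun σ _ => ?_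
      rcases (hnn (r σ)).eq_or_lt with h0 | h0
      · rw [← h0, Real.zero_rpow (by linarith), zero_mul]
      · rw [Real.rpow_add h0, Real.rpow_one]
    rw [h3]
    calc ρ M * ∏ σ, ρ (r σ) ≤ (Real.sqrt ζ * ∏ σ, ρ (r σ) ^ θ) * ∏ σ, ρ (r σ) :=
          mul_le_mul_of_nonneg_right h1 (Finset.prod_nonneg fun σ _ => hnn _)
      _ = Real.sqrt ζ * ((∏ σ, ρ (r σ)) * ∏ σ, ρ (r σ) ^ θ) := by ring
  have hsumr : ∑ r ∈ RR, ∏ σ, ρ (r σ) ^ (1 + θ) ≤ E ^ s := by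
    have h1 : ∑ r ∈ RR, ∏ σ, ρ (r σ) ^ (1 + θ) =
        ∏ _σ : Finset ι, ∑ d ∈ DD, ρ d ^ (1 + θ) := by
      rw [Finset.prod_univ_sum]
    rw [h1, Finset.prod_const, Finset.card_univ, ← hs]
    refine pow_le_pow_left₀ (Finset.sum_nonneg fun d _ => Real.rpow_nonneg (hnn d) _) ?_ _
    refine hρ.sum_le θ hθ.le P DD ?_ ?_
    · intro p hp
      obtain ⟨n, -, hn⟩ := Finset.mem_biUnion.1 hp
      exact Nat.prime_of_mem_primeFactors hn
    · intro d hd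
      refine ⟨(hDpos d hd).ne', ?_⟩
      obtain ⟨n, hn, hd'⟩ := Finset.mem_biUnion.1 hd
      intro p hp
      exact Finset.mem_biUnion.2 ⟨n, hn,
        Nat.primeFactors_mono (Nat.dvd_of_mem_divisors hd') (hNN n hn) hp⟩
  have hsz : 0 ≤ Real.sqrt ζ := Real.sqrt_nonneg _
  calc (((NN.filter (fun n => BigG ι V ρ ζ n)).card : ℕ) : ℝ)
      ≤ ∑ c ∈ CC, ∑ r ∈ RR.filter (fun r => 0 < F c.1 c.2.1 c.2.2 r ∧
          ρ (F c.1 c.2.1 c.2.2 r) ≤ ζ ∧ ∀ σ, ρ (F c.1 c.2.1 c.2.2 r) ≤ ρ (r σ)),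
          (((NN.filter (fun n => (F c.1 c.2.1 c.2.2 r * ∏ σ, r σ) ∣ n)).card : ℕ) : ℝ) := by
        have h1 := (Finset.card_le_card hsub).trans Finset.card_biUnion_le
        have h2 : (((NN.filter (fun n => BigG ι V ρ ζ n)).card : ℕ) : ℝ) ≤ _ :=
          (Nat.cast_le (α := ℝ)).2 h1
        refine h2.trans ?_
        push_cast
        refine Finset.sum_le_sum fun c _ => ?_
        have h3 := Finset.card_biUnion_le (s := RR.filter (fun r => 0 < F c.1 c.2.1 c.2.2 r ∧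
          ρ (F c.1 c.2.1 c.2.2 r) ≤ ζ ∧ ∀ σ, ρ (F c.1 c.2.1 c.2.2 r) ≤ ρ (r σ)))
          (t := fun r => NN.filter (fun n => (F c.1 c.2.1 c.2.2 r * ∏ σ, r σ) ∣ n))
        have h4 := (Nat.cast_le (α := ℝ)).2 h3
        push_cast at h4
        exact h4
    _ ≤ ∑ c ∈ CC, NN.card * Real.sqrt ζ * E ^ s := by
        refine Finset.sum_le_sum fun c hc => ?_
        calc _ ≤ ∑ r ∈ RR.filter (fun r => 0 < F c.1 c.2.1 c.2.2 r ∧
              ρ (F c.1 c.2.1 c.2.2 r) ≤ ζ ∧ ∀ σ, ρ (F c.1 c.2.1 c.2.2 r) ≤ ρ (r σ)),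
              NN.card * Real.sqrt ζ * ∏ σ, ρ (r σ) ^ (1 + θ) :=
              Finset.sum_le_sum fun r hr => hone c hc r hr
          _ ≤ ∑ r ∈ RR, NN.card * Real.sqrt ζ * ∏ σ, ρ (r σ) ^ (1 + θ) := by
              refine Finset.sum_le_sum_of_subset_of_nonneg (Finset.filter_subset _ _) ?_
              intro r _ _
              have : 0 ≤ ∏ σ, ρ (r σ) ^ (1 + θ) :=
                Finset.prod_nonneg fun σ _ => Real.rpow_nonneg (hnn _) _
              positivity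
          _ = NN.card * Real.sqrt ζ * ∑ r ∈ RR, ∏ σ, ρ (r σ) ^ (1 + θ) := by
              rw [Finset.mul_sum]
          _ ≤ NN.card * Real.sqrt ζ * E ^ s := mul_le_mul_of_nonneg_left hsumr (by positivity)
    _ = NN.card * ((s : ℝ) ^ 2 * (V.card : ℝ) ^ Fintype.card ι) * Real.sqrt ζ * E ^ s := by
        rw [Finset.sum_const, nsmul_eq_mul, hCCcard]; ring

open Classical in
/-- The average number of divisors of density at least `ξ`. -/
theorem sum_div (ρ : ℕ → ℝ) (hρ : Dens ρ) (NN : Finset ℕ) (hNN : ∀ n ∈ NN, n ≠ 0)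
    (hdens : ∀ L : ℕ, L ≠ 0 → (((NN.filter (fun n => L ∣ n)).card : ℕ) : ℝ) ≤ ρ L * NN.card)
    (ξ θ T : ℝ) (hξ : 0 < ξ) (hθ : 0 < θ) (hT : 0 < T) :
    T * (((NN.filter (fun n => T ≤ ((n.divisors.filter (fun d => ξ ≤ ρ d)).card : ℝ))).card : ℕ) :
      ℝ) ≤ NN.card * (ξ ^ (-θ)) *
        Real.exp (2 * ∑ p ∈ NN.biUnion Nat.primeFactors, ρ p ^ (1 + θ)) := by
  set P := NN.biUnion Nat.primeFactors with hP
  set DD := NN.biUnion Nat.divisors with hDD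
  have hnn : ∀ n, 0 ≤ ρ n := fun n => (hρ.bd n).1
  have h1 : T * (((NN.filter (fun n =>
      T ≤ ((n.divisors.filter (fun d => ξ ≤ ρ d)).card : ℝ))).card : ℕ) : ℝ) ≤
      ∑ n ∈ NN, ((n.divisors.filter (fun d => ξ ≤ ρ d)).card : ℝ) := by
    calc T * (((NN.filter (fun n =>
        T ≤ ((n.divisors.filter (fun d => ξ ≤ ρ d)).card : ℝ))).card : ℕ) : ℝ)
        = ∑ n ∈ NN.filter (fun n =>
          T ≤ ((n.divisors.filter (fun d => ξ ≤ ρ d)).card : ℝ)), T := by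
          rw [Finset.sum_const, nsmul_eq_mul, mul_comm]
      _ ≤ ∑ n ∈ NN.filter (fun n =>
          T ≤ ((n.divisors.filter (fun d => ξ ≤ ρ d)).card : ℝ)),
          ((n.divisors.filter (fun d => ξ ≤ ρ d)).card : ℝ) :=
          Finset.sum_le_sum fun n hn => (mem_filter.1 hn).2
      _ ≤ _ := Finset.sum_le_sum_of_subset_of_nonneg (Finset.filter_subset _ _)
          (fun _ _ _ => Nat.cast_nonneg _)
  have h2 : ∑ n ∈ NN, ((n.divisors.filter (fun d => ξ ≤ ρ d)).card : ℝ) =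
      ∑ d ∈ DD.filter (fun d => ξ ≤ ρ d), (((NN.filter (fun n => d ∣ n)).card : ℕ) : ℝ) := by
    have h3 : ∀ n ∈ NN, ((n.divisors.filter (fun d => ξ ≤ ρ d)).card : ℝ) =
        ∑ d ∈ DD.filter (fun d => ξ ≤ ρ d), if d ∣ n then (1 : ℝ) else 0 := by
      intro n hn
      rw [← Finset.sum_filter, Finset.sum_const, nsmul_eq_mul, mul_one]
      congr 2
      ext d
      simp only [mem_filter, Nat.mem_divisors]
      constructor
      · rintro ⟨⟨h4, h5⟩, h6⟩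
        exact ⟨⟨Finset.mem_biUnion.2 ⟨n, hn, Nat.mem_divisors.2 ⟨h4, h5⟩⟩, h6⟩, h4⟩
      · rintro ⟨⟨h4, h5⟩, h6⟩
        exact ⟨⟨h6, hNN n hn⟩, h5⟩
    rw [Finset.sum_congr rfl h3, Finset.sum_comm]
    refine Finset.sum_congr rfl fun d _ => ?_
    rw [← Finset.sum_filter, Finset.sum_const, nsmul_eq_mul, mul_one]
  have hDpos : ∀ d ∈ DD, 0 < d := by
    intro d hd
    obtain ⟨n, -, hd'⟩ := Finset.mem_biUnion.1 hd
    exact Nat.pos_of_mem_divisors hd'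
  rw [h2] at h1
  refine h1.trans ?_
  have h5 : ∑ d ∈ DD, ρ d ^ (1 + θ) ≤ Real.exp (2 * ∑ p ∈ P, ρ p ^ (1 + θ)) := by
    refine hρ.sum_le θ hθ.le P DD ?_ ?_
    · intro p hp
      obtain ⟨n, -, hn⟩ := Finset.mem_biUnion.1 hp
      exact Nat.prime_of_mem_primeFactors hn
    · intro d hd
      refine ⟨(hDpos d hd).ne', ?_⟩
      obtain ⟨n, hn, hd'⟩ := Finset.mem_biUnion.1 hd
      intro p hp
      exact Finset.mem_biUnion.2 ⟨n, hn,
        Nat.primeFactors_mono (Nat.dvd_of_mem_divisors hd') (hNN n hn) hp⟩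
  calc ∑ d ∈ DD.filter (fun d => ξ ≤ ρ d), (((NN.filter (fun n => d ∣ n)).card : ℕ) : ℝ)
      ≤ ∑ d ∈ DD.filter (fun d => ξ ≤ ρ d), NN.card * (ξ ^ (-θ)) * ρ d ^ (1 + θ) := by
        refine Finset.sum_le_sum fun d hd => ?_
        obtain ⟨hd1, hd2⟩ := mem_filter.1 hd
        refine (hdens d (hDpos d hd1).ne').trans ?_
        have hρd : 0 < ρ d := lt_of_lt_of_le hξ hd2
        rw [mul_comm, mul_assoc]
        refine mul_le_mul_of_nonneg_left ?_ (Nat.cast_nonneg _)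
        rw [Real.rpow_add hρd, Real.rpow_one, Real.rpow_neg hξ.le]
        have h6 : ξ ^ θ ≤ ρ d ^ θ := Real.rpow_le_rpow hξ.le hd2 hθ.le
        have h7 : 0 < ξ ^ θ := Real.rpow_pos_of_pos hξ _
        rw [inv_mul_eq_div, le_div_iff₀ h7]
        exact mul_le_mul_of_nonneg_left h6 hρd.le
    _ ≤ ∑ d ∈ DD, NN.card * (ξ ^ (-θ)) * ρ d ^ (1 + θ) := by
        refine Finset.sum_le_sum_of_subset_of_nonneg (Finset.filter_subset _ _) ?_
        intro d _ _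
        have := Real.rpow_nonneg (hnn d) (1 + θ)
        positivity
    _ = NN.card * (ξ ^ (-θ)) * ∑ d ∈ DD, ρ d ^ (1 + θ) := by rw [Finset.mul_sum]
    _ ≤ _ := mul_le_mul_of_nonneg_left h5 (by positivity)

end Pool.Agent.Helper79.AD
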