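import Pool.Agent.Helper79.AD.Rel

set_option autoImplicit false

/-! # The multiplicative decomposition attached to divisors of `n` -/

namespace Pool.Agent.Helper79.AD

open Finset

variable {ι : Type*} [Fintype ι] [DecidableEq ι]

/-- Indices `i ∈ S` with `p ^ j ∣ z i`. -/
def pat (S : Finset ι) (z : ι → ℤ) (p j : ℕ) : Finset ι :=
  S.filter (fun i => j ≤ (z i).natAbs.factorization p)

/-- `N n S z σ` is the product of the `p` over the `(p, j)`, `1 ≤ j ≤ v_p(n)`, with pattern `σ`. -/
noncomputable def N (n : ℕ) (S : Finset ι) (z : ι → ℤ) (σ : Finset ι) : ℕ :=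
  ∏ p ∈ n.primeFactors,
    p ^ ((Finset.Icc 1 (n.factorization p)).filter (fun j => pat S z p j = σ)).card

theorem N_pos (n : ℕ) (S : Finset ι) (z : ι → ℤ) (σ : Finset ι) : 0 < N n S z σ :=
  Finset.prod_pos fun _ hp => pow_pos (Nat.pos_of_mem_primeFactors hp) _

theorem prod_N (n : ℕ) (hn : n ≠ 0) (S : Finset ι) (z : ι → ℤ) :
    ∏ σ : Finset ι, N n S z σ = n := by
  classical
  unfold N
  rw [Finset.prod_comm]
  conv_rhs => rw [← Nat.prod_factorization_pow_eq_self hn]
  rw [Finsupp.prod, Nat.support_factorization]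
  refine Finset.prod_congr rfl fun p _ => ?_
  rw [Finset.prod_pow_eq_pow_sum]
  congr 1
  have h := Finset.card_eq_sum_card_fiberwise (s := Finset.Icc 1 (n.factorization p))
    (t := (univ : Finset (Finset ι))) (f := fun j => pat S z p j) (fun _ _ => by simp)
  rw [← h]; simp

theorem prod_N_mem (n : ℕ) (hn : n ≠ 0) (S : Finset ι) (z : ι → ℤ) (i : ι) (hi : i ∈ S)
    (hz : z i ∣ (n : ℤ)) :
    ∏ σ ∈ (univ : Finset (Finset ι)).filter (fun σ => i ∈ σ), N n S z σ = (z i).natAbs := by
  classical
  have hz0 : (z i).natAbs ≠ 0 := by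
    intro h
    rw [Int.natAbs_eq_zero] at h
    rw [h, zero_dvd_iff] at hz
    exact hn (by exact_mod_cast hz)
  have hdvd : (z i).natAbs ∣ n := by
    have := Int.natAbs_dvd_natAbs.2 hz
    simpa using this
  unfold N
  rw [Finset.prod_comm]
  conv_rhs => rw [← Nat.prod_factorization_pow_eq_self hz0]
  rw [Finsupp.prod, Nat.support_factorization]
  rw [← Finset.prod_subset (Nat.primeFactors_mono hdvd hn)]
  · refine Finset.prod_congr rfl fun p _ => ?_
    rw [Finset.prod_pow_eq_pow_sum]
    congr 1
    have h := Finset.card_eq_sum_card_fiberwise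
      (s := (Finset.Icc 1 (n.factorization p)).filter (fun j => i ∈ pat S z p j))
      (t := (univ : Finset (Finset ι)).filter (fun σ => i ∈ σ)) (f := fun j => pat S z p j)
      (fun j hj => by
        have := (Finset.mem_filter.1 hj).2
        simpa using this)
    have h2 : ((Finset.Icc 1 (n.factorization p)).filter (fun j => i ∈ pat S z p j)).card =
        (z i).natAbs.factorization p := by
      have : (Finset.Icc 1 (n.factorization p)).filter (fun j => i ∈ pat S z p j) =
          Finset.Icc 1 ((z i).natAbs.factorization p) := by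
        ext j
        have hle : (z i).natAbs.factorization p ≤ n.factorization p :=
          (Nat.factorization_le_iff_dvd hz0 hn).2 hdvd p
        simp only [mem_filter, mem_Icc, pat, hi, true_and]
        omega
      rw [this]; simp
    rw [← h2, h]
    refine Finset.sum_congr rfl fun σ hσ => ?_
    congr 1
    ext j
    simp only [mem_filter]
    constructor
    · rintro ⟨h1, h2⟩
      exact ⟨⟨h1, by rw [h2]; exact (mem_filter.1 hσ).2⟩, h2⟩
    · rintro ⟨h1, h2⟩
      exact ⟨h1.1, h2⟩
  · intro p hp hp'
    rw [Finset.prod_pow_eq_pow_sum]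
    have hv : (z i).natAbs.factorization p = 0 := by
      rw [← Finsupp.notMem_support_iff, Nat.support_factorization]; exact hp'
    have : ∑ σ ∈ (univ : Finset (Finset ι)).filter (fun σ => i ∈ σ),
        ((Finset.Icc 1 (n.factorization p)).filter (fun j => pat S z p j = σ)).card = 0 := by
      refine Finset.sum_eq_zero fun σ hσ => ?_
      rw [Finset.card_eq_zero, Finset.filter_eq_empty_iff]
      intro j hj heq
      have h1 : i ∈ pat S z p j := by rw [heq]; exact (mem_filter.1 hσ).2
      have h2 := (mem_filter.1 h1).2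
      rw [hv] at h2
      have := (mem_Icc.1 hj).1
      omega
    rw [this, pow_zero]

theorem N_eq_one (n : ℕ) (S : Finset ι) (z : ι → ℤ) (σ : Finset ι) (h : ¬ σ ⊆ S) :
    N n S z σ = 1 := by
  classical
  refine Finset.prod_eq_one fun p _ => ?_
  have : ((Finset.Icc 1 (n.factorization p)).filter (fun j => pat S z p j = σ)) = ∅ := by
    rw [Finset.filter_eq_empty_iff]
    intro j _ heq
    exact h (by rw [← heq]; exact Finset.filter_subset _ _)
  rw [this]; simp

end Pool.Agent.Helper79.AD
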