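import Pool.Agent.Helper79.AD.Dec

set_option autoImplicit false
set_option linter.unusedSectionVars false

/-! # One factor of a relation is determined by the others -/

namespace Pool.Agent.Helper79.AD

open Finset

variable {ι : Type*} [Fintype ι] [DecidableEq ι]

/-- `σ` is an active pattern: non-empty, contained in `S`, different from `S`. -/
def Act (S σ : Finset ι) : Prop := σ ⊆ S ∧ σ.Nonempty ∧ σ ≠ S

instance (S σ : Finset ι) : Decidable (Act S σ) := by unfold Act; infer_instance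

/-- The product of the `r σ` over the `σ` containing `i`. -/
def pr (r : Finset ι → ℕ) (i : ι) : ℕ := ∏ σ ∈ (univ : Finset (Finset ι)).filter (fun σ => i ∈ σ), r σ

/-- The factor determined by the others. -/
def F (S : Finset ι) (s : ι → ℤ) (σ₀ : Finset ι) (r : Finset ι → ℕ) : ℕ :=
  (∑ i ∈ S \ σ₀, s i * (pr r i : ℤ)).natAbs / (∑ i ∈ σ₀, s i * (pr r i : ℤ)).natAbs

/-- The active factors different from `σ₀`. -/
def rest (S σ₀ : Finset ι) (M : Finset ι → ℕ) (σ : Finset ι) : ℕ :=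
  if Act S σ ∧ σ ≠ σ₀ then M σ else 1

/-- The active factors. -/
def act (S : Finset ι) (M : Finset ι → ℕ) (σ : Finset ι) : ℕ := if Act S σ then M σ else 1

theorem pr_eq (S σ₀ : Finset ι) (M : Finset ι → ℕ) (hM : ∀ σ, ¬ σ ⊆ S → M σ = 1)
    (h₀ : Act S σ₀) (i : ι) (hi : i ∈ S) :
    pr M i = M S * ((if i ∈ σ₀ then M σ₀ else 1) * pr (rest S σ₀ M) i) := by
  classical
  have key : ∀ σ ∈ (univ : Finset (Finset ι)).filter (fun σ => i ∈ σ),
      M σ = (if σ = S then M S else 1) * ((if σ = σ₀ then M σ₀ else 1) * rest S σ₀ M σ) := by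
    intro σ hσ
    have hiσ := (mem_filter.1 hσ).2
    have hne : σ.Nonempty := ⟨i, hiσ⟩
    unfold rest
    by_cases h1 : σ = S
    · subst h1
      have h3 : σ ≠ σ₀ := fun h => h₀.2.2 h.symm
      simp [Act, h3]
    · by_cases h2 : σ = σ₀
      · subst h2
        simp [h1]
      · by_cases h3 : σ ⊆ S
        · simp [Act, h1, h2, h3, hne]
        · simp [Act, h1, h2, h3, hM σ h3]
  unfold pr
  rw [Finset.prod_congr rfl key, Finset.prod_mul_distrib, Finset.prod_mul_distrib]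
  congr 1
  · rw [Finset.prod_ite_eq']
    simp [hi]
  · congr 1
    rw [Finset.prod_ite_eq']
    simp

theorem pr_eq' (S : Finset ι) (M : Finset ι → ℕ) (hM : ∀ σ, ¬ σ ⊆ S → M σ = 1)
    (i : ι) (hi : i ∈ S) : pr M i = M S * pr (act S M) i := by
  classical
  have key : ∀ σ ∈ (univ : Finset (Finset ι)).filter (fun σ => i ∈ σ),
      M σ = (if σ = S then M S else 1) * act S M σ := by
    intro σ hσ
    have hiσ := (mem_filter.1 hσ).2
    have hne : σ.Nonempty := ⟨i, hiσ⟩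
    unfold act
    by_cases h1 : σ = S
    · subst h1
      simp [Act]
    · by_cases h3 : σ ⊆ S
      · simp [Act, h1, h3, hne]
      · simp [Act, h1, h3, hM σ h3]
  unfold pr
  rw [Finset.prod_congr rfl key, Finset.prod_mul_distrib]
  congr 1
  rw [Finset.prod_ite_eq']
  simp [hi]

theorem det (S σ₀ : Finset ι) (s : ι → ℤ) (M : Finset ι → ℕ) (hM : ∀ σ, ¬ σ ⊆ S → M σ = 1)
    (hpos : ∀ σ, 0 < M σ) (z : ι → ℤ) (hz : ∀ i ∈ S, z i = s i * (pr M i : ℤ))
    (hrel : IsRel S z) (h₀ : Act S σ₀) : F S s σ₀ (rest S σ₀ M) = M σ₀ := by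
  classical
  set r := rest S σ₀ M with hr
  set U := ∑ i ∈ σ₀, s i * (pr r i : ℤ) with hU
  set V := ∑ i ∈ S \ σ₀, s i * (pr r i : ℤ) with hV
  have hMS : (M S : ℤ) ≠ 0 := by exact_mod_cast (hpos S).ne'
  have h1 : ∑ i ∈ σ₀, z i = (M S : ℤ) * ((M σ₀ : ℤ) * U) := by
    rw [hU, Finset.mul_sum, Finset.mul_sum]
    refine Finset.sum_congr rfl fun i hi => ?_
    rw [hz i (h₀.1 hi), pr_eq S σ₀ M hM h₀ i (h₀.1 hi), if_pos hi]
    push_cast; ring
  have h2 : ∑ i ∈ S \ σ₀, z i = (M S : ℤ) * V := by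
    rw [hV, Finset.mul_sum]
    refine Finset.sum_congr rfl fun i hi => ?_
    have hi' := Finset.mem_sdiff.1 hi
    rw [hz i hi'.1, pr_eq S σ₀ M hM h₀ i hi'.1, if_neg hi'.2]
    push_cast; ring
  have h3 : (M σ₀ : ℤ) * U + V = 0 := by
    have := Finset.sum_sdiff (f := z) h₀.1
    rw [hrel.1, h1, h2] at this
    have h4 : (M S : ℤ) * ((M σ₀ : ℤ) * U + V) = 0 := by linarith
    rcases mul_eq_zero.1 h4 with h5 | h5
    · exact absurd h5 hMS
    · exact h5
  have hV0 : V ≠ 0 := by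
    intro h
    have h4 : ∑ i ∈ S \ σ₀, z i = 0 := by rw [h2, h, mul_zero]
    refine hrel.2 (S \ σ₀) Finset.sdiff_subset ?_ ?_ h4
    · rw [Finset.sdiff_nonempty]
      intro h5
      exact h₀.2.2 (Finset.Subset.antisymm h₀.1 h5)
    · intro h5
      obtain ⟨i, hi⟩ := h₀.2.1
      have : i ∈ S \ σ₀ := by rw [h5]; exact h₀.1 hi
      exact (Finset.mem_sdiff.1 this).2 hi
  have h6 : V = - ((M σ₀ : ℤ) * U) := by linarith
  have h7 : V.natAbs = M σ₀ * U.natAbs := by
    rw [h6, Int.natAbs_neg, Int.natAbs_mul, Int.natAbs_natCast]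
  have hU0 : 0 < U.natAbs := by
    rw [Int.natAbs_pos]
    rintro h
    rw [h, mul_zero, add_comm, add_zero] at h3
    exact hV0 h3
  unfold F
  rw [← hU, ← hV, h7]
  exact Nat.mul_div_cancel _ hU0

/-- The decomposition of a divisor of `n` with its sign. -/
theorem z_eq (n : ℕ) (hn : n ≠ 0) (S : Finset ι) (z : ι → ℤ) (i : ι) (hi : i ∈ S)
    (hz : z i ∣ (n : ℤ)) : z i = (z i).sign * (pr (N n S z) i : ℤ) := by
  unfold pr
  rw [prod_N_mem n hn S z i hi hz]
  exact (Int.sign_mul_natAbs (z i)).symm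

theorem near_of (n : ℕ) (hn : n ≠ 0) (S : Finset ι) (z : ι → ℤ)
    (hz : ∀ i ∈ S, z i ∣ (n : ℤ)) (Z : ℕ) (hZ1 : 1 ≤ Z) (hZ : ∀ σ, Act S σ → N n S z σ ≤ Z)
    (i j : ι) (hi : i ∈ S) (hj : j ∈ S) :
    ∃ a ∈ Finset.Icc 1 (Z ^ Fintype.card (Finset ι)),
      ∃ b ∈ Finset.Icc 1 (Z ^ Fintype.card (Finset ι)),
      |z j| = |z i| * (a : ℕ) / (b : ℕ) := by
  classical
  have hb : ∀ i : ι, pr (act S (N n S z)) i ∈ Finset.Icc 1 (Z ^ Fintype.card (Finset ι)) := by
    intro i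
    have h1 : ∀ σ, 1 ≤ act S (N n S z) σ := by
      intro σ; unfold act; split_ifs
      · exact N_pos _ _ _ _
      · exact le_rfl
    have h2 : ∀ σ, act S (N n S z) σ ≤ Z := by
      intro σ; unfold act; split_ifs with h
      · exact hZ σ h
      · exact hZ1
    rw [Finset.mem_Icc]
    refine ⟨Nat.succ_le_of_lt (by unfold pr; exact Finset.prod_pos fun σ _ => h1 σ), ?_⟩
    calc pr (act S (N n S z)) i ≤ ∏ σ ∈ (univ : Finset (Finset ι)).filter (fun σ => i ∈ σ), Z :=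
          Finset.prod_le_prod' fun σ _ => h2 σ
      _ = Z ^ ((univ : Finset (Finset ι)).filter (fun σ => i ∈ σ)).card := by
          rw [Finset.prod_const]
      _ ≤ Z ^ Fintype.card (Finset ι) := by
          refine Nat.pow_le_pow_right hZ1 ?_
          exact (Finset.card_filter_le _ _).trans (by rw [Finset.card_univ])
  refine ⟨_, hb j, _, hb i, ?_⟩
  have h1 : ∀ i ∈ S, |z i| = (N n S z S : ℤ) * (pr (act S (N n S z)) i : ℤ) := by
    intro i hi
    rw [Int.abs_eq_natAbs, ← prod_N_mem n hn S z i hi (hz i hi)]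
    have := pr_eq' S (N n S z) (N_eq_one n S z) i hi
    unfold pr at this ⊢
    rw [this]; push_cast; ring
  rw [h1 i hi, h1 j hj]
  have hpos : (0 : ℤ) < (pr (act S (N n S z)) i : ℤ) := by
    have := (Finset.mem_Icc.1 (hb i)).1
    exact_mod_cast this
  symm
  refine Int.ediv_eq_of_eq_mul_left hpos.ne' ?_
  ring

end Pool.Agent.Helper79.AD
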