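import Pool.Agent.Helper79.AD.CorA
import Pool.Agent.Helper79.AD.CorB

set_option autoImplicit false

/-! # Final form -/

namespace Pool.Agent.Helper79.AD

open Finset

theorem ks_eq (k : ℕ) (A : Finset ℤ) :
    ks k A = (Fintype.piFinset (fun _ : Fin k => A)).image (fun f : Fin k → ℤ => ∑ i, f i) := by
  unfold ks
  ext x
  simp only [mem_image]

open Classical in
theorem final (k : ℕ) : ∃ C : ℕ, 0 < C ∧
    ∀ (N : Finset ℕ) (ρ : ℕ → ℝ) (W : Finset ℤ) (η : ℝ),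
    (∀ n ∈ N, 0 < n) → ρ 1 = 1 → (∀ a b, ρ (a * b) = ρ a * ρ b) →
    (∀ p, p.Prime → 0 ≤ ρ p ∧ ρ p ≤ 1 / 2) →
    (∀ L : ℕ, 0 < L → ((N.filter (fun n => L ∣ n)).card : ℝ) ≤ ρ L * N.card) →
    W.Nonempty → (0 : ℤ) ∉ W → 0 < η → η ≤ 1 →
    ((N.filter (fun n => ¬ ∀ (A : Finset ℤ) (M : ℕ),
      (∀ a ∈ A, ∃ w ∈ W, ∃ d : ℕ, d ∣ n ∧ a = w * d) →
      (∀ d : ℕ, d ∣ n → (A.filter (fun a => ∃ w ∈ W, a = w * (d : ℤ))).card ≤ M) →
      (A.card : ℝ) ^ k ≤ (k.factorial : ℝ) *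
          (((Fintype.piFinset (fun _ : Fin k => A)).image
            (fun f : Fin k → ℤ => ∑ i, f i)).card : ℝ) +
        C * ((W.card : ℝ) / η) ^ C *
        Real.exp (C * ∑ p ∈ N.biUnion Nat.primeFactors, ρ p ^ (1 + 1 / (C : ℝ))) *
        M * (A.card : ℝ) ^ (k - 1))).card : ℝ) ≤ η * N.card := by
  obtain ⟨C, hC, h⟩ := mainG k
  refine ⟨C, hC, fun N ρ W η h1 h2 h3 h4 h5 h6 h7 h8 h9 => ?_⟩
  have h10 := h N ρ W η h1 h2 h3 h4 h5 h6 h7 h8 h9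
  refine le_trans (Nat.cast_le.2 (card_le_card fun n hn => ?_)) h10
  rw [mem_filter] at hn ⊢
  refine ⟨hn.1, fun hcon => hn.2 fun A M hA hM => ?_⟩
  have h11 := hcon A M hA (fun d hd => by
    refine le_trans (card_le_card fun a ha => ?_) (hM d hd)
    simpa only [mem_filter] using ha)
  rw [ks_eq] at h11
  refine le_trans h11 (le_of_eq ?_)
  congr 3

end Pool.Agent.Helper79.AD
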