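import Pool.Agent.Helper79.AD.SubCube
import Pool.Agent.Helper79.AD.BkSub

set_option autoImplicit false

/-! # Final form 2: sub-cubes of an arbitrary cube of primes -/

namespace Pool.Agent.Helper79.AD

open Finset

theorem err_mono (C C2 t : ℕ) (r x : ℝ) (hC : 0 < C) (h : C ≤ C2) (hx : 1 ≤ x) (hr0 : 0 ≤ r)
    (hr1 : r ≤ 1) : C * x ^ C * Real.exp (C * (t * r ^ (1 / (C : ℝ)))) ≤
      C2 * x ^ C2 * Real.exp (C2 * (t * r ^ (1 / (C2 : ℝ)))) := by
  have hC' : (0 : ℝ) < C := by exact_mod_cast hC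
  have hCC : (C : ℝ) ≤ C2 := by exact_mod_cast h
  have e4 : r ^ (1 / (C : ℝ)) ≤ r ^ (1 / (C2 : ℝ)) := by
    have e5 : 1 / (C2 : ℝ) ≤ 1 / (C : ℝ) := one_div_le_one_div_of_le hC' hCC
    rcases hr0.eq_or_lt with h9 | h9
    · have hC2' : (0 : ℝ) < C2 := lt_of_lt_of_le hC' hCC
      rw [← h9, Real.zero_rpow (by positivity), Real.zero_rpow (by positivity)]
    · exact Real.rpow_le_rpow_of_exponent_ge h9 hr1 e5
  have hr6 := Real.rpow_nonneg hr0 (1 / (C : ℝ))
  refine mul_le_mul (mul_le_mul hCC (pow_le_pow_right₀ hx h) (by positivity)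
    (Nat.cast_nonneg _)) ?_ (Real.exp_pos _).le (by positivity)
  refine Real.exp_le_exp.2 ?_
  exact mul_le_mul hCC (mul_le_mul_of_nonneg_left e4 (Nat.cast_nonneg _))
    (mul_nonneg (Nat.cast_nonneg _) hr6) (Nat.cast_nonneg _)

open Classical in
theorem final2 (k : ℕ) : ∃ C : ℕ, 0 < C ∧ ∀ (P : Finset ℕ) (t : ℕ) (η : ℝ),
    (∀ p ∈ P, p.Prime) → 2 * t ≤ P.card → 0 < η → η ≤ 1 →
    (∀ W : Finset ℤ, W.Nonempty → (0 : ℤ) ∉ W →
      (((P.powersetCard t).filter (fun Q => ¬ ∀ (A : Finset ℤ) (M : ℕ),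
        (∀ a ∈ A, ∃ w ∈ W, ∃ e : ℕ, e ∣ ∏ p ∈ Q, p ∧ a = w * e) →
        (∀ e : ℕ, e ∣ ∏ p ∈ Q, p → (A.filter (fun a => ∃ w ∈ W, a = w * (e : ℤ))).card ≤ M) →
        (A.card : ℝ) ^ k ≤ (k.factorial : ℝ) *
            (((Fintype.piFinset (fun _ : Fin k => A)).image
              (fun f : Fin k → ℤ => ∑ i, f i)).card : ℝ) +
          C * ((W.card : ℝ) / η) ^ C * Real.exp (C * (t * ((t : ℝ) / P.card) ^ (1 / (C : ℝ)))) *
          M * (A.card : ℝ) ^ (k - 1))).card : ℝ) ≤ η * (P.powersetCard t).card) ∧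
    (C * (t / η) ^ C ≤ (P.card : ℝ) →
      (((P.powersetCard t).filter (fun Q => ¬ ∀ A : Finset ℤ,
        (∀ a ∈ A, 0 < a ∧ a ∣ ((∏ p ∈ Q, p : ℕ) : ℤ)) →
        ((Fintype.piFinset (fun _ : Fin k => A)).image (fun f : Fin k → ℤ => ∑ i, f i)).card =
          (A.card + k - 1).choose k)).card : ℝ) ≤ η * (P.powersetCard t).card) := by
  obtain ⟨C1, hC1, h1⟩ := subcube k
  obtain ⟨C2, hC2, h2⟩ := bk_subsets k
  obtain ⟨C, hC⟩ : ∃ C : ℕ, C = max C1 C2 := ⟨_, rfl⟩
  have hCa : C1 ≤ C := by rw [hC]; exact le_max_left _ _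
  have hCb : C2 ≤ C := by rw [hC]; exact le_max_right _ _
  have hC0 : 0 < C := lt_of_lt_of_le hC1 hCa
  refine ⟨C, hC0, fun P t η hP ht hη hη1 => ⟨fun W hW h0 => ?_, fun hPt => ?_⟩⟩
  · refine le_trans (Nat.cast_le.2 (card_le_card fun D hD => ?_)) (h1 P t W η hP ht hW h0 hη hη1)
    obtain ⟨hD1, hD2⟩ := mem_filter.1 hD
    refine mem_filter.2 ⟨hD1, fun hcon => hD2 fun A M hA hM => ?_⟩
    have h3 := hcon A M hA (fun d hd => by
      refine le_trans (card_le_card fun a ha => ?_) (hM d hd)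
      simpa only [mem_filter] using ha)
    have h4 : ks k A = (Fintype.piFinset (fun _ : Fin k => A)).image
        (fun f : Fin k → ℤ => ∑ i, f i) := by
      unfold ks
      ext x
      simp only [mem_image]
    rw [h4] at h3
    have hw1 : (1 : ℝ) ≤ W.card := by exact_mod_cast hW.card_pos
    have hwη : 1 ≤ (W.card : ℝ) / η := by
      rw [le_div_iff₀ hη]
      linarith
    have hr0 : (0 : ℝ) ≤ (t : ℝ) / P.card := by positivity
    have hr1 : (t : ℝ) / P.card ≤ 1 := by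
      rcases Nat.eq_zero_or_pos P.card with h9 | h9
      · rw [h9, Nat.cast_zero, div_zero]
        exact zero_le_one
      · rw [div_le_one (by exact_mod_cast h9)]
        exact_mod_cast (by omega : t ≤ P.card)
    refine le_trans h3 (add_le_add (le_of_eq ?_) (mul_le_mul_of_nonneg_right
      (mul_le_mul_of_nonneg_right (err_mono C1 C t _ _ hC1 hCa hwη hr0 hr1)
        (Nat.cast_nonneg _)) (by positivity)))
    congr 3
  · have hPt' : C2 * (1 / η) ^ C2 * (t : ℝ) ^ C2 ≤ P.card := by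
      refine le_trans ?_ hPt
      rcases Nat.eq_zero_or_pos t with h5 | h5
      · rw [h5, Nat.cast_zero, zero_pow hC2.ne', mul_zero, zero_div, zero_pow hC0.ne', mul_zero]
      · have ht1 : (1 : ℝ) ≤ t / η := by
          rw [le_div_iff₀ hη]
          have : (1 : ℝ) ≤ t := by exact_mod_cast h5
          linarith
        calc C2 * (1 / η) ^ C2 * (t : ℝ) ^ C2 = C2 * (t / η) ^ C2 := by
              rw [mul_assoc, ← mul_pow]
              congr 2
              ring
          _ ≤ C * (t / η) ^ C :=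
              mul_le_mul (by exact_mod_cast hCb) (pow_le_pow_right₀ ht1 hCb) (by positivity)
                (by positivity)
    refine le_trans (Nat.cast_le.2 (card_le_card fun D hD => ?_)) (h2 P t η hP hη hη1 hPt')
    obtain ⟨hD1, hD2⟩ := mem_filter.1 hD
    refine mem_filter.2 ⟨hD1, fun hcon => hD2 fun A hA => ?_⟩
    have h6 := hcon.card k _ A hA
    refine Eq.trans ?_ h6
    unfold ks
    congr 1

end Pool.Agent.Helper79.AD
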