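import Pool.Agent.Helper79.AD.Rel

set_option autoImplicit false

/-! # Sums of tuples with pairwise distant entries -/

namespace Pool.Agent.Helper79.AD

open Finset

/-- `k`-fold sumset. -/
def ks (k : ℕ) (A : Finset ℤ) : Finset ℤ :=
  (Fintype.piFinset (fun _ : Fin k => A)).image (fun f : Fin k → ℤ => ∑ i, f i)

/-- The signed vector attached to two `k`-tuples. -/
def sv {k : ℕ} (u : Fin k ⊕ Fin k → ℤ) : Fin k ⊕ Fin k → ℤ :=
  Sum.elim (fun i => u (Sum.inl i)) (fun i => - u (Sum.inr i))

open Classical in
theorem card_fiber {k : ℕ} (A : Finset ℤ) (h0 : ∀ a ∈ A, a ≠ 0) (near : ℤ → ℤ → Prop)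
    (hrefl : ∀ a ∈ A, near a a)
    (hrel : ∀ (S : Finset (Fin k ⊕ Fin k)) (u : Fin k ⊕ Fin k → ℤ), (∀ i, u i ∈ A) →
      IsRel S (sv u) → ∀ i ∈ S, ∀ j ∈ S, near (u i) (u j))
    (f g : Fin k → ℤ) (hf : ∀ i, f i ∈ A) (hg : ∀ i, g i ∈ A)
    (hf' : ∀ i j, i ≠ j → ¬ near (f i) (f j)) (hg' : ∀ i j, i ≠ j → ¬ near (g i) (g j))
    (hfg : ∑ i, g i = ∑ i, f i) : ∃ π : Equiv.Perm (Fin k), g = f ∘ ⇑π := by
  set u : Fin k ⊕ Fin k → ℤ := Sum.elim f g with hu
  have huA : ∀ i, u i ∈ A := by
    intro i
    rcases i with i | i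
    · exact hf i
    · exact hg i
  have hz0 : ∑ j, sv u j = 0 := by
    rw [Fintype.sum_sum_type]
    simp only [sv, hu, Sum.elim_inl, Sum.elim_inr, Finset.sum_neg_distrib]
    rw [hfg]; ring
  have key : ∀ j : Fin k, ∃ i : Fin k, g j = f i := by
    intro j
    obtain ⟨S, hjS, hS⟩ := exists_rel (sv u) hz0 (Sum.inr j)
    have hn := hrel S u huA hS
    have h1 : ∀ j', Sum.inr j' ∈ S → j' = j := by
      intro j' hj'
      by_contra hne
      exact hg' j' j hne (hn _ hj' _ hjS)
    have hex : ∃ i, Sum.inl i ∈ S := by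
      by_contra hcon
      push Not at hcon
      have hS' : S = {Sum.inr j} := by
        ext c
        rw [mem_singleton]
        constructor
        · intro hc
          rcases c with c | c
          · exact absurd hc (hcon c)
          · rw [h1 c hc]
        · rintro rfl; exact hjS
      have := hS.1
      rw [hS', sum_singleton] at this
      simp only [sv, hu, Sum.elim_inr, neg_eq_zero] at this
      exact h0 _ (hg j) this
    obtain ⟨i, hi⟩ := hex
    have h2 : ∀ i', Sum.inl i' ∈ S → i' = i := by
      intro i' hi'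
      by_contra hne
      exact hf' i' i hne (hn _ hi' _ hi)
    have hS' : S = {Sum.inl i, Sum.inr j} := by
      ext c
      rw [mem_insert, mem_singleton]
      constructor
      · intro hc
        rcases c with c | c
        · exact Or.inl (by rw [h2 c hc])
        · exact Or.inr (by rw [h1 c hc])
      · rintro (rfl | rfl)
        · exact hi
        · exact hjS
    have := hS.1
    rw [hS', sum_pair (by simp)] at this
    simp only [sv, hu, Sum.elim_inl, Sum.elim_inr] at this
    exact ⟨i, by linarith⟩
  choose π hπ using key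
  have hinj : Function.Injective π := by
    intro a b hab
    by_contra hne
    have h1 : g a = g b := by rw [hπ a, hπ b, hab]
    apply hg' a b hne
    rw [← h1]
    exact hrefl _ (hg a)
  exact ⟨Equiv.ofBijective π (Finite.injective_iff_bijective.1 hinj), funext fun j => hπ j⟩

open Classical in
theorem typical_bound {k : ℕ} (A : Finset ℤ) (h0 : ∀ a ∈ A, a ≠ 0) (near : ℤ → ℤ → Prop)
    (hrefl : ∀ a ∈ A, near a a) (B : ℕ)
    (hB : ∀ a ∈ A, (A.filter (fun b => near a b)).card ≤ B)
    (hrel : ∀ (S : Finset (Fin k ⊕ Fin k)) (u : Fin k ⊕ Fin k → ℤ), (∀ i, u i ∈ A) →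
      IsRel S (sv u) → ∀ i ∈ S, ∀ j ∈ S, near (u i) (u j)) :
    A.card ^ k ≤ k.factorial * (ks k A).card + k ^ 2 * B * A.card ^ (k - 1) := by
  set T := (Fintype.piFinset (fun _ : Fin k => A)) with hT
  have hcard : T.card = A.card ^ k := by
    rw [hT, Fintype.card_piFinset]; simp
  set P : (Fin k → ℤ) → Prop := fun f => ∀ i j, i ≠ j → ¬ near (f i) (f j) with hP
  have hsplit := Finset.card_filter_add_card_filter_not (s := T) P
  have hgood : (T.filter P).card ≤ k.factorial * (ks k A).card := by
    have h1 : (T.filter P).card ≤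
        k.factorial * ((T.filter P).image (fun f : Fin k → ℤ => ∑ i, f i)).card := by
      refine Finset.card_le_mul_card_image _ _ ?_
      intro w hw
      obtain ⟨f, hf, rfl⟩ := Finset.mem_image.1 hw
      obtain ⟨hfT, hfP⟩ := mem_filter.1 hf
      rw [hT, Fintype.mem_piFinset] at hfT
      have hsub : ((T.filter P).filter (fun g => ∑ i, g i = ∑ i, f i)) ⊆
          (univ : Finset (Equiv.Perm (Fin k))).image (fun π : Equiv.Perm (Fin k) => f ∘ ⇑π) := by
        intro g hg
        obtain ⟨hg1, hg2⟩ := mem_filter.1 hg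
        obtain ⟨hgT, hgP⟩ := mem_filter.1 hg1
        rw [hT, Fintype.mem_piFinset] at hgT
        obtain ⟨π, hπ⟩ := card_fiber A h0 near hrefl hrel f g hfT hgT hfP hgP hg2
        exact mem_image.2 ⟨π, mem_univ _, hπ.symm⟩
      refine (Finset.card_le_card hsub).trans (Finset.card_image_le.trans ?_)
      rw [Finset.card_univ, Fintype.card_perm, Fintype.card_fin]
    refine h1.trans (Nat.mul_le_mul_left _ (Finset.card_le_card ?_))
    exact Finset.image_subset_image (Finset.filter_subset _ _)
  have hbad : (T.filter (fun f => ¬ P f)).card ≤ k ^ 2 * B * A.card ^ (k - 1) := by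
    have hsub : T.filter (fun f => ¬ P f) ⊆
        (univ : Finset (Fin k × Fin k)).biUnion (fun q =>
          T.filter (fun f => q.1 ≠ q.2 ∧ near (f q.1) (f q.2))) := by
      intro f hf
      obtain ⟨hfT, hfP⟩ := mem_filter.1 hf
      simp only [hP] at hfP
      push Not at hfP
      obtain ⟨i, j, hij, hn⟩ := hfP
      exact mem_biUnion.2 ⟨(i, j), mem_univ _, mem_filter.2 ⟨hfT, hij, hn⟩⟩
    refine (Finset.card_le_card hsub).trans (Finset.card_biUnion_le.trans ?_)
    have hone : ∀ q : Fin k × Fin k,
        (T.filter (fun f => q.1 ≠ q.2 ∧ near (f q.1) (f q.2))).card ≤ B * A.card ^ (k - 1) := by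
      rintro ⟨i, j⟩
      by_cases hij : i = j
      · simp [hij]
      · -- forget the coordinate `j`
        set R : (Fin k → ℤ) → ({l : Fin k // l ≠ j} → ℤ) := fun f l => f l.1 with hR
        have h1 := Finset.card_le_mul_card_image (f := R)
          (T.filter (fun f => i ≠ j ∧ near (f i) (f j))) B ?_
        · refine h1.trans (Nat.mul_le_mul_left _ ?_)
          have h2 : (T.filter (fun f => i ≠ j ∧ near (f i) (f j))).image R ⊆
              Fintype.piFinset (fun _ : {l : Fin k // l ≠ j} => A) := by
            intro v hv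
            obtain ⟨f, hf, rfl⟩ := mem_image.1 hv
            rw [Fintype.mem_piFinset]
            intro l
            have := (mem_filter.1 hf).1
            rw [hT, Fintype.mem_piFinset] at this
            exact this l.1
          refine (Finset.card_le_card h2).trans ?_
          rw [Fintype.card_piFinset]
          simp [Fintype.card_subtype_compl]
        · intro v hv
          obtain ⟨f, hf, rfl⟩ := mem_image.1 hv
          obtain ⟨hfT, -, hfn⟩ := mem_filter.1 hf
          rw [hT, Fintype.mem_piFinset] at hfT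
          refine (Finset.card_le_card_of_injOn (fun g => g j) ?_ ?_).trans (hB (f i) (hfT i))
          · intro g hg
            obtain ⟨hg1, hg2⟩ := mem_filter.1 (mem_coe.1 hg)
            obtain ⟨hgT, -, hgn⟩ := mem_filter.1 hg1
            rw [hT, Fintype.mem_piFinset] at hgT
            have : g i = f i := congrFun hg2 ⟨i, hij⟩
            rw [this] at hgn
            exact mem_coe.2 (mem_filter.2 ⟨hgT j, hgn⟩)
          · intro g hg g' hg' hgg
            have e1 : R g = R f := (mem_filter.1 (mem_coe.1 hg)).2
            have e2 : R g' = R f := (mem_filter.1 (mem_coe.1 hg')).2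
            funext l
            by_cases hl : l = j
            · subst hl; exact hgg
            · have := congrFun (e1.trans e2.symm) ⟨l, hl⟩
              exact this
    calc ∑ q : Fin k × Fin k, (T.filter (fun f => q.1 ≠ q.2 ∧ near (f q.1) (f q.2))).card
        ≤ ∑ _q : Fin k × Fin k, B * A.card ^ (k - 1) := Finset.sum_le_sum fun q _ => hone q
      _ = k ^ 2 * B * A.card ^ (k - 1) := by
          rw [Finset.sum_const, Finset.card_univ, Fintype.card_prod, Fintype.card_fin, smul_eq_mul]
          ring
  rw [← hcard, ← hsplit]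
  exact Nat.add_le_add hgood hbad

end Pool.Agent.Helper79.AD
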