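import Pool.Agent.Helper79.AD.CountG
import Pool.Agent.Helper79.AD.Typ

set_option autoImplicit false
set_option linter.unusedSectionVars false

/-! # Sumsets of sets of multiples of divisors of a good integer -/

namespace Pool.Agent.Helper79.AD

open Finset

/-- Divisors of density at least `ξ`. -/
noncomputable def YY (ρ : ℕ → ℝ) (ξ : ℝ) (n : ℕ) : Finset ℕ := by
  classical exact n.divisors.filter (fun d => ξ ≤ ρ d)

theorem mem_YY (ρ : ℕ → ℝ) (ξ : ℝ) (n d : ℕ) (hn : n ≠ 0) :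
    d ∈ YY ρ ξ n ↔ d ∣ n ∧ ξ ≤ ρ d := by
  classical
  unfold YY
  simp [hn]

theorem pr_act_mem {ι : Type*} [Fintype ι] [DecidableEq ι] (ρ : ℕ → ℝ) (hρ : Dens ρ) (ζ : ℝ)
    (hζ0 : 0 ≤ ζ) (hζ1 : ζ ≤ 1) (n : ℕ) (hn : n ≠ 0) (S : Finset ι) (D : ι → ℤ)
    (h : ∀ σ, Act S σ → ζ < ρ (N n S D σ)) (i : ι) :
    pr (act S (N n S D)) i ∈ YY ρ (ζ ^ Fintype.card (Finset ι)) n := by
  classical
  rw [mem_YY _ _ _ _ hn]
  constructor
  · unfold pr
    have h1 : ∏ σ ∈ (univ : Finset (Finset ι)).filter (fun σ => i ∈ σ), act S (N n S D) σ ∣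
        ∏ σ ∈ (univ : Finset (Finset ι)).filter (fun σ => i ∈ σ), N n S D σ := by
      refine Finset.prod_dvd_prod_of_dvd _ _ fun σ _ => ?_
      unfold act
      split_ifs
      · exact dvd_rfl
      · exact one_dvd _
    have h2 : ∏ σ ∈ (univ : Finset (Finset ι)).filter (fun σ => i ∈ σ), N n S D σ ∣
        ∏ σ : Finset ι, N n S D σ :=
      Finset.prod_dvd_prod_of_subset _ _ _ (Finset.filter_subset _ _)
    rw [prod_N n hn S D] at h2
    exact h1.trans h2
  · unfold pr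
    rw [hρ.prod]
    have h3 : ∀ σ, ζ ≤ ρ (act S (N n S D) σ) := by
      intro σ
      unfold act
      split_ifs with h4
      · exact (h σ h4).le
      · rw [hρ.one]; exact hζ1
    calc ζ ^ Fintype.card (Finset ι)
        ≤ ζ ^ ((univ : Finset (Finset ι)).filter (fun σ => i ∈ σ)).card := by
          refine pow_le_pow_of_le_one hζ0 hζ1 ?_
          exact (Finset.card_filter_le _ _).trans (by rw [Finset.card_univ])
      _ = ∏ _σ ∈ (univ : Finset (Finset ι)).filter (fun σ => i ∈ σ), ζ := by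
          rw [Finset.prod_const]
      _ ≤ ∏ σ ∈ (univ : Finset (Finset ι)).filter (fun σ => i ∈ σ), ρ (act S (N n S D) σ) :=
          Finset.prod_le_prod (fun _ _ => hζ0) (fun σ _ => h3 σ)

open Classical in
theorem goodG (k : ℕ) (W : Finset ℤ) (h0W : (0 : ℤ) ∉ W) (ρ : ℕ → ℝ) (hρ : Dens ρ) (ζ : ℝ)
    (hζ0 : 0 ≤ ζ) (hζ1 : ζ ≤ 1) (n : ℕ) (hn : n ≠ 0)
    (hgood : ¬ BigG (Fin k ⊕ Fin k) (W ∪ W.image (fun a => -a)) ρ ζ n)
    (A : Finset ℤ) (M : ℕ) (hA : ∀ a ∈ A, ∃ w ∈ W, ∃ d : ℕ, d ∣ n ∧ a = w * d)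
    (hM : ∀ d : ℕ, d ∣ n → (A.filter (fun a => ∃ w ∈ W, a = w * (d : ℤ))).card ≤ M) :
    A.card ^ k ≤ k.factorial * (ks k A).card +
      k ^ 2 * ((YY ρ (ζ ^ Fintype.card (Finset (Fin k ⊕ Fin k))) n).card ^ 2 * M) *
        A.card ^ (k - 1) := by
  set Y := YY ρ (ζ ^ Fintype.card (Finset (Fin k ⊕ Fin k))) n with hY
  have hA' : ∀ a, ∃ (w : ℤ) (d : ℕ), a ∈ A → w ∈ W ∧ d ∣ n ∧ a = w * d := by
    intro a
    by_cases ha : a ∈ A
    · obtain ⟨w, hw, d, hd, h⟩ := hA a ha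
      exact ⟨w, d, fun _ => ⟨hw, hd, h⟩⟩
    · exact ⟨0, 0, fun h => absurd h ha⟩
  choose wf df hwd using hA'
  have hdpos : ∀ a ∈ A, 0 < df a := fun a ha =>
    Nat.pos_of_dvd_of_pos (hwd a ha).2.1 (Nat.pos_of_ne_zero hn)
  refine typical_bound A ?_ (fun a b => ∃ y ∈ Y, ∃ y' ∈ Y, df b * y' = df a * y) ?_
    (Y.card ^ 2 * M) ?_ ?_
  · intro a ha h0
    obtain ⟨hw, hd, h⟩ := hwd a ha
    have h' : wf a * (df a : ℤ) = 0 := by rw [← h]; exact h0
    rcases mul_eq_zero.1 h' with h1 | h1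
    · exact h0W (h1 ▸ hw)
    · have := hdpos a ha
      have h2 : df a = 0 := by exact_mod_cast h1
      omega
  · intro a ha
    have h1 : 1 ∈ Y := by
      rw [hY, mem_YY _ _ _ _ hn, hρ.one]
      exact ⟨one_dvd _, pow_le_one₀ hζ0 hζ1⟩
    exact ⟨1, h1, 1, h1, rfl⟩
  · intro a ha
    refine le_trans (Finset.card_le_card
        (t := (Y ×ˢ Y).biUnion (fun q => if df a * q.1 / q.2 ∣ n then
          A.filter (fun b => ∃ w ∈ W, b = w * ((df a * q.1 / q.2 : ℕ) : ℤ)) else ∅)) ?_) ?_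
    · intro b hb
      simp only [Finset.mem_filter] at hb
      obtain ⟨hbA, y, hy, y', hy', h⟩ := hb
      obtain ⟨hw, hd, hb'⟩ := hwd b hbA
      have hy'0 : 0 < y' := by
        rw [hY, mem_YY _ _ _ _ hn] at hy'
        exact Nat.pos_of_dvd_of_pos hy'.1 (Nat.pos_of_ne_zero hn)
      have h1 : df a * y / y' = df b := by rw [← h]; exact Nat.mul_div_cancel _ hy'0
      refine mem_biUnion.2 ⟨(y, y'), mem_product.2 ⟨hy, hy'⟩, ?_⟩
      simp only [h1]
      rw [if_pos hd]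
      exact mem_filter.2 ⟨hbA, wf b, hw, hb'⟩
    · refine Finset.card_biUnion_le.trans ?_
      calc ∑ q ∈ Y ×ˢ Y, (if df a * q.1 / q.2 ∣ n then
            A.filter (fun b => ∃ w ∈ W, b = w * ((df a * q.1 / q.2 : ℕ) : ℤ)) else ∅).card
          ≤ ∑ _q ∈ Y ×ˢ Y, M := by
            refine Finset.sum_le_sum fun q _ => ?_
            split_ifs with h1
            · exact hM _ h1
            · simp
        _ = Y.card ^ 2 * M := by
            rw [Finset.sum_const, Finset.card_product, smul_eq_mul, sq]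
  · intro S u huA hS i hi j hj
    set s : Fin k ⊕ Fin k → ℤ :=
      Sum.elim (fun l => wf (u (Sum.inl l))) (fun l => - wf (u (Sum.inr l))) with hs
    set D : Fin k ⊕ Fin k → ℤ := fun l => (df (u l) : ℤ) with hD
    have hsv : sv u = fun l => s l * D l := by
      funext l
      rcases l with l | l
      · simp only [sv, hs, hD, Sum.elim_inl]
        exact (hwd _ (huA _)).2.2
      · simp only [sv, hs, hD, Sum.elim_inr]
        have := (hwd _ (huA (Sum.inr l))).2.2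
        linarith
    rw [hsv] at hS
    have hDd : ∀ l, 0 < D l ∧ D l ∣ (n : ℤ) := by
      intro l
      refine ⟨by simp only [hD]; exact_mod_cast hdpos _ (huA l), ?_⟩
      simp only [hD]
      exact_mod_cast (hwd _ (huA l)).2.1
    have hact : ∀ σ, Act S σ → ζ < ρ (N n S D σ) := by
      intro σ hσ
      by_contra hcon
      refine hgood ⟨S, s, D, ?_, hDd, hS, σ, hσ, not_lt.1 hcon⟩
      intro l
      rw [mem_union, mem_image]
      rcases l with l | l
      · exact Or.inl (hwd _ (huA _)).1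
      · exact Or.inr ⟨wf (u (Sum.inr l)), (hwd _ (huA _)).1, rfl⟩
    have hy := pr_act_mem ρ hρ ζ hζ0 hζ1 n hn S D hact
    refine ⟨_, hy j, _, hy i, ?_⟩
    have h1 : ∀ l ∈ S, df (u l) = N n S D S * pr (act S (N n S D)) l := by
      intro l hl
      rw [← pr_eq' S (N n S D) (N_eq_one n S D) l hl]
      unfold pr
      rw [prod_N_mem n hn S D l hl (hDd l).2]
      simp [hD]
    rw [h1 i hi, h1 j hj]; ring

end Pool.Agent.Helper79.AD
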