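import Pool.Agent.Helper79.AD.GoodG

set_option autoImplicit false

/-! # Assembly -/

namespace Pool.Agent.Helper79.AD

open Finset

theorem const_bound (k s m w C : ℕ) (η R R' : ℝ) (hw : 1 ≤ w) (hη : 0 < η) (hη1 : η ≤ 1)
    (hR : 0 ≤ R) (hRR : R ≤ R')
    (hC : C = 16 * k ^ 2 * s ^ 4 * 2 ^ (2 * m) + 2 * m + 4 + 4 * (s + 1) + 2 * s) :
    (k : ℝ) ^ 2 * (4 * ((s : ℝ) ^ 2 * (2 * (w : ℝ)) ^ m) / η ^ 2 * Real.exp (2 * R) ^ (s + 1)) ^ 2 ≤
      C * ((w : ℝ) / η) ^ C * Real.exp (C * R') := by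
  have hw' : (1 : ℝ) ≤ w := by exact_mod_cast hw
  have hη' : 1 ≤ 1 / η := by rw [le_div_iff₀ hη]; linarith
  have h1 : (16 * k ^ 2 * s ^ 4 * 2 ^ (2 * m) : ℝ) ≤ C := by
    rw [hC]; push_cast
    have : (0 : ℝ) ≤ 2 * m + 4 + 4 * (s + 1) + 2 * s := by positivity
    linarith
  have hC1 : 2 * m ≤ C := by rw [hC]; omega
  have hC2 : 4 ≤ C := by rw [hC]; omega
  have hC3 : ((4 * (s + 1) : ℕ) : ℝ) ≤ C := by exact_mod_cast (by rw [hC]; omega : 4 * (s + 1) ≤ C)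
  have h2 : (w : ℝ) ^ (2 * m) * (1 / η) ^ 4 ≤ ((w : ℝ) / η) ^ C := by
    have h2' : ((w : ℝ) / η) ^ C = (w : ℝ) ^ C * (1 / η) ^ C := by
      rw [← mul_pow, mul_one_div]
    rw [h2']
    exact mul_le_mul (pow_le_pow_right₀ hw' hC1) (pow_le_pow_right₀ hη' hC2) (by positivity)
      (by positivity)
  have h3 : Real.exp (2 * R) ^ (2 * (s + 1)) ≤ Real.exp (C * R') := by
    rw [← Real.exp_nat_mul]
    refine Real.exp_le_exp.2 ?_
    push_cast at hC3 ⊢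
    calc 2 * ((s : ℝ) + 1) * (2 * R) = (4 * ((s : ℝ) + 1)) * R := by ring
      _ ≤ C * R' := mul_le_mul hC3 hRR hR (Nat.cast_nonneg _)
  calc (k : ℝ) ^ 2 * (4 * ((s : ℝ) ^ 2 * (2 * (w : ℝ)) ^ m) / η ^ 2 *
        Real.exp (2 * R) ^ (s + 1)) ^ 2
      = (16 * k ^ 2 * s ^ 4 * 2 ^ (2 * m)) * ((w : ℝ) ^ (2 * m) * (1 / η) ^ 4) *
        Real.exp (2 * R) ^ (2 * (s + 1)) := by
        have e1 : Real.exp (2 * R) ^ (2 * (s + 1)) = (Real.exp (2 * R) ^ (s + 1)) ^ 2 := by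
          rw [← pow_mul, mul_comm (s + 1) 2]
        have e2 : (2 : ℝ) ^ (2 * m) * (w : ℝ) ^ (2 * m) = ((2 * (w : ℝ)) ^ m) ^ 2 := by
          rw [← mul_pow, ← pow_mul, mul_comm m 2]
        rw [e1]
        generalize Real.exp (2 * R) ^ (s + 1) = E
        calc (k : ℝ) ^ 2 * (4 * ((s : ℝ) ^ 2 * (2 * (w : ℝ)) ^ m) / η ^ 2 * E) ^ 2
            = (16 * k ^ 2 * s ^ 4) * ((2 * (w : ℝ)) ^ m) ^ 2 * (1 / η) ^ 4 * E ^ 2 := by
              generalize (2 * (w : ℝ)) ^ m = F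
              field_simp
              ring
          _ = _ := by rw [← e2]; ring
    _ ≤ C * ((w : ℝ) / η) ^ C * Real.exp (C * R') := by
        refine mul_le_mul ?_ h3 (by positivity) (by positivity)
        exact mul_le_mul h1 h2 (by positivity) (Nat.cast_nonneg _)

open Classical in
theorem mainG (k : ℕ) : ∃ C : ℕ, 0 < C ∧
    ∀ (NN : Finset ℕ) (ρ : ℕ → ℝ) (W : Finset ℤ) (η : ℝ),
    (∀ n ∈ NN, 0 < n) → ρ 1 = 1 → (∀ a b, ρ (a * b) = ρ a * ρ b) →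
    (∀ p, p.Prime → 0 ≤ ρ p ∧ ρ p ≤ 1 / 2) →
    (∀ L : ℕ, 0 < L → (((NN.filter (fun n => L ∣ n)).card : ℕ) : ℝ) ≤ ρ L * NN.card) →
    W.Nonempty → (0 : ℤ) ∉ W → 0 < η → η ≤ 1 →
    (((NN.filter (fun n => ¬ ∀ (A : Finset ℤ) (M : ℕ),
      (∀ a ∈ A, ∃ w ∈ W, ∃ d : ℕ, d ∣ n ∧ a = w * d) →
      (∀ d : ℕ, d ∣ n → (A.filter (fun a => ∃ w ∈ W, a = w * (d : ℤ))).card ≤ M) →
      (A.card : ℝ) ^ k ≤ (k.factorial : ℝ) * ((ks k A).card : ℝ) +
        C * ((W.card : ℝ) / η) ^ C *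
        Real.exp (C * ∑ p ∈ NN.biUnion Nat.primeFactors, ρ p ^ (1 + 1 / (C : ℝ))) *
        M * (A.card : ℝ) ^ (k - 1))).card : ℕ) : ℝ) ≤ η * NN.card := by
  set s := Fintype.card (Finset (Fin k ⊕ Fin k)) with hs
  set m := Fintype.card (Fin k ⊕ Fin k) with hm
  have hs0 : 0 < s := Fintype.card_pos
  have hs0' : (0 : ℝ) < s := by exact_mod_cast hs0
  obtain ⟨C, hC⟩ : ∃ C : ℕ, C = 16 * k ^ 2 * s ^ 4 * 2 ^ (2 * m) + 2 * m + 4 + 4 * (s + 1) + 2 * s :=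
    ⟨_, rfl⟩
  have hC0 : 0 < C := by rw [hC]; omega
  have hC0' : (0 : ℝ) < C := by exact_mod_cast hC0
  refine ⟨C, hC0, fun NN ρ W η hNN h1 hmul hp hdens hW h0W hη hη1 => ?_⟩
  have hρ : Dens ρ := ⟨h1, hmul, hp⟩
  have hNN' : ∀ n ∈ NN, n ≠ 0 := fun n hn => (hNN n hn).ne'
  have hdens' : ∀ L : ℕ, L ≠ 0 →
      (((NN.filter (fun n => L ∣ n)).card : ℕ) : ℝ) ≤ ρ L * NN.card :=
    fun L hL => hdens L (Nat.pos_of_ne_zero hL)
  have hnn : ∀ n, 0 ≤ ρ n := fun n => (hρ.bd n).1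
  set w := W.card with hw
  have hw1 : 1 ≤ w := hW.card_pos
  have hw1' : (1 : ℝ) ≤ w := by exact_mod_cast hw1
  set θ : ℝ := 1 / (2 * s) with hθ
  have hθ0 : 0 < θ := by positivity
  have hθ1 : 2 * θ * (s : ℝ) = 1 := by rw [hθ]; field_simp
  set P := NN.biUnion Nat.primeFactors with hP
  set R := ∑ p ∈ P, ρ p ^ (1 + θ) with hR
  set R' := ∑ p ∈ P, ρ p ^ (1 + 1 / (C : ℝ)) with hR'
  have hR0 : 0 ≤ R := Finset.sum_nonneg fun p _ => Real.rpow_nonneg (hnn p) _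
  have hCθ : 1 / (C : ℝ) ≤ θ := by
    rw [hθ]
    refine one_div_le_one_div_of_le (by positivity) ?_
    have : 2 * s ≤ C := by rw [hC]; omega
    exact_mod_cast this
  have hRR : R ≤ R' := by
    refine Finset.sum_le_sum fun p _ => ?_
    rcases (hnn p).eq_or_lt with h0 | h0
    · rw [← h0, Real.zero_rpow (by linarith), Real.zero_rpow (by positivity)]
    · exact Real.rpow_le_rpow_of_exponent_ge h0 (hρ.bd p).2 (by linarith)
  set V := W ∪ W.image (fun a => -a) with hV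
  have hVc : (V.card : ℝ) ≤ 2 * w := by
    have : V.card ≤ 2 * w := by
      calc V.card ≤ W.card + (W.image (fun a => -a)).card := Finset.card_union_le _ _
        _ ≤ W.card + W.card := Nat.add_le_add_left Finset.card_image_le _
        _ = 2 * w := by rw [hw]; ring
    exact_mod_cast this
  set K : ℝ := (s : ℝ) ^ 2 * (2 * (w : ℝ)) ^ m with hK
  have hK1 : 1 ≤ K := by
    rw [hK]
    have h2 : (1 : ℝ) ≤ (s : ℝ) ^ 2 := one_le_pow₀ (by exact_mod_cast hs0)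
    have h3 : (1 : ℝ) ≤ (2 * (w : ℝ)) ^ m := one_le_pow₀ (by linarith)
    nlinarith
  set E := Real.exp (2 * R) with hE
  have hE1 : 1 ≤ E := Real.one_le_exp (by linarith)
  have hEs : 1 ≤ E ^ s := one_le_pow₀ hE1
  have hEpos : 0 < E := by linarith
  set z : ℝ := η / (2 * K * E ^ s) with hz
  have hz0 : 0 < z := by positivity
  have hz1 : z ≤ 1 := by
    rw [hz, div_le_one (by positivity)]
    nlinarith [mul_le_mul hK1 hEs zero_le_one (by linarith : (0:ℝ) ≤ K)]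
  set ζ : ℝ := z ^ 2 with hζ
  have hζ0 : 0 < ζ := by positivity
  have hζ1 : ζ ≤ 1 := pow_le_one₀ hz0.le hz1
  have hsq : Real.sqrt ζ = z := Real.sqrt_sq hz0.le
  set T : ℝ := 4 * K / η ^ 2 * E ^ (s + 1) with hT
  have hT0 : 0 < T := by positivity
  -- first exceptional set
  have hbad1 : (((NN.filter (fun n => BigG (Fin k ⊕ Fin k) V ρ ζ n)).card : ℕ) : ℝ) ≤
      η / 2 * NN.card := by
    have h2 := card_bigG (ι := Fin k ⊕ Fin k) V ρ hρ NN hNN' hdens' ζ θ hζ0.le hθ0 hθ1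
    rw [← hs, ← hm, ← hP, ← hR, ← hE, hsq] at h2
    refine h2.trans ?_
    have h3 : (s : ℝ) ^ 2 * (V.card : ℝ) ^ m ≤ K := by
      rw [hK]
      exact mul_le_mul_of_nonneg_left (pow_le_pow_left₀ (Nat.cast_nonneg _) hVc _) (by positivity)
    calc (NN.card : ℝ) * ((s : ℝ) ^ 2 * (V.card : ℝ) ^ m) * z * E ^ s
        ≤ (NN.card : ℝ) * K * z * E ^ s := by
          refine mul_le_mul_of_nonneg_right (mul_le_mul_of_nonneg_right
            (mul_le_mul_of_nonneg_left h3 (Nat.cast_nonneg _)) hz0.le) (by positivity)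
      _ = η / 2 * NN.card := by
          rw [hz]; field_simp
  -- second exceptional set
  set ξ : ℝ := ζ ^ s with hξ
  have hξ0 : 0 < ξ := by positivity
  have hξθ : ξ ^ (-θ) = 2 * K * E ^ s / η := by
    rw [hξ, ← Real.rpow_natCast ζ s, ← Real.rpow_mul hζ0.le]
    have h2 : (s : ℝ) * -θ = -(1 / 2) := by linarith
    rw [h2, Real.rpow_neg hζ0.le, ← Real.sqrt_eq_rpow, hsq, hz]
    rw [inv_div]
  have hbad2 : (((NN.filter (fun n =>
      T ≤ ((n.divisors.filter (fun d => ξ ≤ ρ d)).card : ℝ))).card : ℕ) : ℝ) ≤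
      η / 2 * NN.card := by
    have h2 := sum_div ρ hρ NN hNN' hdens' ξ θ T hξ0 hθ0 hT0
    rw [← hP, ← hR, ← hE, hξθ] at h2
    have h3 : (NN.card : ℝ) * (2 * K * E ^ s / η) * E = T * (η / 2 * NN.card) := by
      rw [hT, pow_succ]; field_simp; ring
    rw [h3] at h2
    exact le_of_mul_le_mul_left h2 hT0
  have hsub : NN.filter (fun n => ¬ ∀ (A : Finset ℤ) (M : ℕ),
      (∀ a ∈ A, ∃ w ∈ W, ∃ d : ℕ, d ∣ n ∧ a = w * d) →
      (∀ d : ℕ, d ∣ n → (A.filter (fun a => ∃ w ∈ W, a = w * (d : ℤ))).card ≤ M) →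
      (A.card : ℝ) ^ k ≤ (k.factorial : ℝ) * ((ks k A).card : ℝ) +
        C * ((w : ℝ) / η) ^ C * Real.exp (C * R') * M * (A.card : ℝ) ^ (k - 1)) ⊆
      (NN.filter (fun n => BigG (Fin k ⊕ Fin k) V ρ ζ n)) ∪
      (NN.filter (fun n => T ≤ ((n.divisors.filter (fun d => ξ ≤ ρ d)).card : ℝ))) := by
    intro n hn
    obtain ⟨hnN, hn2⟩ := mem_filter.1 hn
    by_contra hcon
    rw [mem_union, mem_filter, mem_filter, not_or, not_and, not_and, not_le] at hcon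
    have hg1 := hcon.1 hnN
    have hg2 := hcon.2 hnN
    apply hn2
    intro A M hA hM
    have h2 := goodG k W h0W ρ hρ ζ hζ0.le hζ1 n (hNN' n hnN) hg1 A M hA hM
    rw [← hs, ← hξ] at h2
    have hYc : ((YY ρ ξ n).card : ℝ) ≤ T := by
      have : YY ρ ξ n = n.divisors.filter (fun d => ξ ≤ ρ d) := by
        unfold YY
        ext d
        simp only [mem_filter]
      rw [this]; exact hg2.le
    have h3 : (A.card : ℝ) ^ k ≤ (k.factorial : ℝ) * ((ks k A).card : ℝ) +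
        (k : ℝ) ^ 2 * (((YY ρ ξ n).card : ℝ) ^ 2 * M) * (A.card : ℝ) ^ (k - 1) := by
      exact_mod_cast h2
    refine h3.trans ?_
    refine add_le_add le_rfl (mul_le_mul_of_nonneg_right ?_ (by positivity))
    have hcb := const_bound k s m w C η R R' hw1 hη hη1 hR0 hRR hC
    calc (k : ℝ) ^ 2 * (((YY ρ ξ n).card : ℝ) ^ 2 * M)
        ≤ (k : ℝ) ^ 2 * (T ^ 2 * M) := by
          gcongr
      _ = ((k : ℝ) ^ 2 * T ^ 2) * M := by ring
      _ ≤ (C * ((w : ℝ) / η) ^ C * Real.exp (C * R')) * M :=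
          mul_le_mul_of_nonneg_right hcb (Nat.cast_nonneg _)
  have h4 := (Nat.cast_le (α := ℝ)).2 ((Finset.card_le_card hsub).trans (Finset.card_union_le _ _))
  refine h4.trans ?_
  push_cast
  linarith

end Pool.Agent.Helper79.AD
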