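import Mathlib

set_option autoImplicit false

/-! # Minimal vanishing sums and the number of representations of a `k`-fold sum -/

namespace Pool.Agent.Helper79.AD

open Finset

/-- `∑_{i ∈ S} z i = 0`, and no proper non-empty subsum vanishes. -/
def IsRel {ι : Type*} (S : Finset ι) (z : ι → ℤ) : Prop :=
  ∑ i ∈ S, z i = 0 ∧ ∀ T ⊆ S, T.Nonempty → T ≠ S → ∑ i ∈ T, z i ≠ 0

theorem exists_rel {ι : Type*} [Fintype ι] [DecidableEq ι] (z : ι → ℤ) (hz : ∑ i, z i = 0)
    (i : ι) : ∃ S : Finset ι, i ∈ S ∧ IsRel S z := by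
  classical
  have hne : ((univ : Finset (Finset ι)).filter
      (fun S => i ∈ S ∧ ∑ j ∈ S, z j = 0)).Nonempty :=
    ⟨univ, by simp [hz]⟩
  obtain ⟨S, hS, hmin⟩ := Finset.exists_min_image _ (fun S : Finset ι => S.card) hne
  simp only [mem_filter, mem_univ, true_and] at hS hmin
  refine ⟨S, hS.1, hS.2, fun T hTS hT hne' h0 => ?_⟩
  by_cases hi : i ∈ T
  · have h1 := hmin T ⟨hi, h0⟩
    have h2 : T.card < S.card := Finset.card_lt_card (hTS.ssubset_of_ne hne')
    omega
  · have h3 : ∑ j ∈ S \ T, z j = 0 := by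
      have := Finset.sum_sdiff (f := z) hTS
      rw [h0, hS.2] at this
      simpa using this
    have h1 := hmin (S \ T) ⟨by simp [hS.1, hi], h3⟩
    have h2 : (S \ T).card < S.card := by
      rw [Finset.card_sdiff_of_subset hTS]
      have := hT.card_pos
      have := Finset.card_le_card hTS
      omega
    omega

/-- If every minimal relation between signed elements of `A` has all its terms close to each other,
then a `k`-fold sum has few representations. -/
theorem card_pow_le {k : ℕ} (A : Finset ℤ) (hpos : ∀ a ∈ A, 0 < a) (nb : ℤ → Finset ℤ) (D : ℕ)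
    (hD : ∀ a ∈ A, (nb a).card ≤ D)
    (hrel : ∀ (S : Finset (Fin k ⊕ Fin k)) (z : Fin k ⊕ Fin k → ℤ), (∀ i ∈ S, |z i| ∈ A) →
      IsRel S z → ∀ i ∈ S, ∀ j ∈ S, |z j| ∈ nb |z i|) :
    A.card ^ k ≤ (k * D) ^ k *
      ((Fintype.piFinset (fun _ : Fin k => A)).image (fun f : Fin k → ℤ => ∑ i, f i)).card := by
  classical
  have hcard : (Fintype.piFinset (fun _ : Fin k => A)).card = A.card ^ k := by
    rw [Fintype.card_piFinset]; simp
  rw [← hcard]
  refine Finset.card_le_mul_card_image _ _ ?_
  intro w hw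
  obtain ⟨x, hx, rfl⟩ := Finset.mem_image.1 hw
  rw [Fintype.mem_piFinset] at hx
  have hsub : ((Fintype.piFinset (fun _ : Fin k => A)).filter
      (fun y => ∑ i, y i = ∑ i, x i)) ⊆
      Fintype.piFinset (fun _ : Fin k => (univ : Finset (Fin k)).biUnion (fun j => nb (x j))) := by
    intro y hy
    rw [Finset.mem_filter, Fintype.mem_piFinset] at hy
    rw [Fintype.mem_piFinset]
    intro i
    set z : Fin k ⊕ Fin k → ℤ := Sum.elim x (fun j => - y j) with hz
    have hz0 : ∑ j, z j = 0 := by
      rw [Fintype.sum_sum_type]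
      simp only [hz, Sum.elim_inl, Sum.elim_inr, Finset.sum_neg_distrib]
      rw [hy.2]; ring
    obtain ⟨S, hiS, hS⟩ := exists_rel z hz0 (Sum.inr i)
    have hmem : ∀ j ∈ S, |z j| ∈ A := by
      intro j _
      rcases j with j | j
      · simp only [hz, Sum.elim_inl]
        rw [abs_of_pos (hpos _ (hx j))]; exact hx j
      · simp only [hz, Sum.elim_inr]
        rw [abs_neg, abs_of_pos (hpos _ (hy.1 j))]; exact hy.1 j
    have hex : ∃ j, Sum.inl j ∈ S := by
      by_contra hcon
      push Not at hcon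
      have hneg : ∀ j ∈ S, z j < 0 := by
        intro j hj
        rcases j with j | j
        · exact absurd hj (hcon j)
        · simp only [hz, Sum.elim_inr]
          have := hpos _ (hy.1 j)
          omega
      have := Finset.sum_neg hneg ⟨_, hiS⟩
      rw [hS.1] at this
      exact lt_irrefl _ this
    obtain ⟨j, hj⟩ := hex
    have hfin := hrel S z hmem hS (Sum.inl j) hj (Sum.inr i) hiS
    simp only [hz, Sum.elim_inl, Sum.elim_inr] at hfin
    rw [abs_neg, abs_of_pos (hpos _ (hx j)), abs_of_pos (hpos _ (hy.1 i))] at hfin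
    exact Finset.mem_biUnion.2 ⟨j, mem_univ _, hfin⟩
  refine (Finset.card_le_card hsub).trans ?_
  rw [Fintype.card_piFinset]
  simp only [prod_const, Finset.card_univ, Fintype.card_fin]
  refine Nat.pow_le_pow_left ?_ _
  refine (Finset.card_biUnion_le).trans ?_
  refine (Finset.sum_le_sum (fun j _ => hD _ (hx j))).trans ?_
  simp

/-- The same for sets of non-zero integers with signs. -/
theorem card_pow_le' {k : ℕ} (A : Finset ℤ) (P : Finset ℤ) (h0 : ∀ a ∈ A, a ≠ 0)
    (hAP : ∀ a ∈ A, |a| ∈ P) (nb : ℤ → Finset ℤ) (D : ℕ)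
    (hD : ∀ a ∈ P, (nb a).card ≤ D)
    (hrel : ∀ (S : Finset (Fin k ⊕ Fin k)) (z : Fin k ⊕ Fin k → ℤ), (∀ i ∈ S, |z i| ∈ P) →
      IsRel S z → ∀ i ∈ S, ∀ j ∈ S, |z j| ∈ nb |z i|) :
    A.card ^ k ≤ (2 * k * D) ^ k *
      ((Fintype.piFinset (fun _ : Fin k => A)).image (fun f : Fin k → ℤ => ∑ i, f i)).card := by
  classical
  set Ap := A.filter (fun a => 0 < a) with hAp
  set An := (A.filter (fun a => a < 0)).image (fun a => -a) with hAn
  have hAn' : An.card = (A.filter (fun a => a < 0)).card :=
    Finset.card_image_of_injective _ neg_injective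
  have hsum : Ap.card + An.card = A.card := by
    rw [hAn', hAp, ← Finset.card_union_of_disjoint]
    · congr 1
      ext a
      simp only [mem_union, mem_filter]
      constructor
      · rintro (h | h) <;> exact h.1
      · intro h
        rcases lt_trichotomy a 0 with h1 | h1 | h1
        · exact Or.inr ⟨h, h1⟩
        · exact absurd h1 (h0 a h)
        · exact Or.inl ⟨h, h1⟩
    · rw [Finset.disjoint_left]
      intro a h1 h2
      simp only [mem_filter] at h1 h2
      omega
  have key : ∀ B : Finset ℤ, (∀ a ∈ B, 0 < a) → (∀ a ∈ B, a ∈ P) →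
      B.card ^ k ≤ (k * D) ^ k *
      ((Fintype.piFinset (fun _ : Fin k => B)).image (fun f : Fin k → ℤ => ∑ i, f i)).card := by
    intro B hB hBP
    exact card_pow_le B hB nb D (fun a ha => hD a (hBP a ha))
      (fun S z hz hS => hrel S z (fun i hi => hBP _ (hz i hi)) hS)
  have hp := key Ap (fun a ha => (mem_filter.1 ha).2) (fun a ha => by
    have h := mem_filter.1 ha
    have := hAP a h.1
    rwa [abs_of_pos h.2] at this)
  have hn := key An (fun a ha => by
      obtain ⟨b, hb, rfl⟩ := mem_image.1 ha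
      have := (mem_filter.1 hb).2
      omega) (fun a ha => by
      obtain ⟨b, hb, rfl⟩ := mem_image.1 ha
      have h := mem_filter.1 hb
      have := hAP b h.1
      rwa [abs_of_neg h.2] at this)
  have hIp : ((Fintype.piFinset (fun _ : Fin k => Ap)).image
        (fun f : Fin k → ℤ => ∑ i, f i)).card ≤
      ((Fintype.piFinset (fun _ : Fin k => A)).image (fun f : Fin k → ℤ => ∑ i, f i)).card := by
    refine Finset.card_le_card (Finset.image_subset_image ?_)
    intro f hf
    rw [Fintype.mem_piFinset] at hf ⊢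
    exact fun i => (mem_filter.1 (hf i)).1
  have hIn : ((Fintype.piFinset (fun _ : Fin k => An)).image
        (fun f : Fin k → ℤ => ∑ i, f i)).card ≤
      ((Fintype.piFinset (fun _ : Fin k => A)).image (fun f : Fin k → ℤ => ∑ i, f i)).card := by
    have : ((Fintype.piFinset (fun _ : Fin k => An)).image
        (fun f : Fin k → ℤ => ∑ i, f i)) ⊆
        (((Fintype.piFinset (fun _ : Fin k => A)).image
          (fun f : Fin k → ℤ => ∑ i, f i)).image (fun a => -a)) := by
      intro w hw
      obtain ⟨f, hf, rfl⟩ := mem_image.1 hw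
      rw [Fintype.mem_piFinset] at hf
      refine mem_image.2 ⟨∑ i, (- f i), mem_image.2 ⟨fun i => - f i, ?_, rfl⟩, by simp⟩
      rw [Fintype.mem_piFinset]
      intro i
      obtain ⟨b, hb, hb'⟩ := mem_image.1 (hf i)
      rw [← hb']
      simpa using (mem_filter.1 hb).1
    exact (Finset.card_le_card this).trans Finset.card_image_le
  set M := ((Fintype.piFinset (fun _ : Fin k => A)).image
    (fun f : Fin k → ℤ => ∑ i, f i)).card with hM
  have hpow : (2 * k * D) ^ k = 2 ^ k * (k * D) ^ k := by rw [mul_assoc, mul_pow]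
  rw [hpow]
  rcases le_total An.card Ap.card with h | h
  · calc A.card ^ k ≤ (2 * Ap.card) ^ k := Nat.pow_le_pow_left (by omega) _
      _ = 2 ^ k * Ap.card ^ k := by rw [mul_pow]
      _ ≤ 2 ^ k * ((k * D) ^ k * M) := Nat.mul_le_mul_left _ (hp.trans (Nat.mul_le_mul_left _ hIp))
      _ = 2 ^ k * (k * D) ^ k * M := by ring
  · calc A.card ^ k ≤ (2 * An.card) ^ k := Nat.pow_le_pow_left (by omega) _
      _ = 2 ^ k * An.card ^ k := by rw [mul_pow]
      _ ≤ 2 ^ k * ((k * D) ^ k * M) := Nat.mul_le_mul_left _ (hn.trans (Nat.mul_le_mul_left _ hIn))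
      _ = 2 ^ k * (k * D) ^ k * M := by ring

end Pool.Agent.Helper79.AD
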