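import Pool.Agent.Helper79.AD.CorB

set_option autoImplicit false

/-! # D3: sub-cubes of any cube of primes -/

namespace Pool.Agent.Helper79.AD

open Finset

open Classical in
theorem subcube (k : ℕ) : ∃ C : ℕ, 0 < C ∧
    ∀ (P : Finset ℕ) (t : ℕ) (W : Finset ℤ) (η : ℝ), (∀ p ∈ P, p.Prime) → 2 * t ≤ P.card →
    W.Nonempty → (0 : ℤ) ∉ W → 0 < η → η ≤ 1 →
    ((((P.powersetCard t).filter (fun D => ¬ ∀ (A : Finset ℤ) (M : ℕ),
      (∀ a ∈ A, ∃ w ∈ W, ∃ d : ℕ, d ∣ ∏ p ∈ D, p ∧ a = w * d) →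
      (∀ d : ℕ, d ∣ ∏ p ∈ D, p → (A.filter (fun a => ∃ w ∈ W, a = w * (d : ℤ))).card ≤ M) →
      (A.card : ℝ) ^ k ≤ (k.factorial : ℝ) * ((ks k A).card : ℝ) +
        C * ((W.card : ℝ) / η) ^ C * Real.exp (C * (t * ((t : ℝ) / P.card) ^ (1 / (C : ℝ)))) *
        M * (A.card : ℝ) ^ (k - 1))).card : ℕ) : ℝ) ≤
      η * (P.powersetCard t).card := by
  obtain ⟨C, hC, h⟩ := mainG k
  have hC' : (0 : ℝ) < C := by exact_mod_cast hC
  refine ⟨C, hC, fun P t W η hP ht hW h0 hη hη1 => ?_⟩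
  obtain ⟨r, hr⟩ : ∃ r : ℝ, r = (t : ℝ) / P.card := ⟨_, rfl⟩
  have hr0 : 0 ≤ r := by rw [hr]; positivity
  have htP2 : t ≤ P.card := by omega
  have hr2 : r ≤ 1 / 2 := by
    rw [hr]
    rcases Nat.eq_zero_or_pos P.card with h1 | h1
    · rw [h1, Nat.cast_zero, div_zero]
      norm_num
    · have h2 : (0 : ℝ) < P.card := by exact_mod_cast h1
      rw [div_le_iff₀ h2]
      have h3 : (2 : ℝ) * t ≤ P.card := by exact_mod_cast ht
      linarith
  rw [← hr]
  have h2 := h ((P.powersetCard t).image (fun D => ∏ p ∈ D, p)) (rB r) W η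
    (fun n hn => by
      obtain ⟨D, hD, rfl⟩ := mem_image.1 hn
      exact Finset.prod_pos fun p hp => (hP p ((mem_powersetCard.1 hD).1 hp)).pos)
    (rB_one _) (rB_mul _)
    (fun p hp => by
      rw [rB_prime _ _ hp]
      exact ⟨hr0, hr2⟩)
    (by rw [hr]; exact rB_dens P hP t htP2) hW h0 hη hη1
  have hinj : Set.InjOn (fun D : Finset ℕ => ∏ p ∈ D, p) (P.powersetCard t : Set (Finset ℕ)) := by
    intro D hD D' hD' h
    rw [Finset.mem_coe, mem_powersetCard] at hD hD'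
    have h1 := prod_primeFactors D fun p hp => hP p (hD.1 hp)
    have h2 := prod_primeFactors D' fun p hp => hP p (hD'.1 hp)
    have h' : ∏ p ∈ D, p = ∏ p ∈ D', p := h
    rw [← h1, ← h2, h']
  rw [card_image_of_injOn hinj] at h2
  refine le_trans ?_ h2
  have hcard : ∀ F : Finset (Finset ℕ), F ⊆ P.powersetCard t →
      F.card = (F.image (fun D => ∏ p ∈ D, p)).card := fun F hF =>
    (card_image_of_injOn (hinj.mono (by exact_mod_cast hF))).symm
  rw [hcard _ (filter_subset _ _)]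
  refine Nat.cast_le.2 ?_
  refine card_le_card fun n hn => ?_
  obtain ⟨D, hD, rfl⟩ := mem_image.1 hn
  obtain ⟨hD1, hD2⟩ := mem_filter.1 hD
  refine mem_filter.2 ⟨mem_image_of_mem _ hD1, fun hcon => hD2 fun A M hA hM => ?_⟩
  have h3 := hcon A M hA hM
  have hsum : ∑ p ∈ ((P.powersetCard t).image (fun D => ∏ p ∈ D, p)).biUnion Nat.primeFactors,
      rB r p ^ (1 + 1 / (C : ℝ)) ≤ t * r ^ (1 / (C : ℝ)) := by
    have h4 : ((P.powersetCard t).image (fun D => ∏ p ∈ D, p)).biUnion Nat.primeFactors ⊆ P := by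
      intro p hp
      obtain ⟨n, hn, hpn⟩ := mem_biUnion.1 hp
      obtain ⟨D, hD, rfl⟩ := mem_image.1 hn
      have hDP := (mem_powersetCard.1 hD).1
      rw [prod_primeFactors D fun p hp => hP p (hDP hp)] at hpn
      exact hDP hpn
    rcases P.eq_empty_or_nonempty with hPe | hPne
    · have : ((P.powersetCard t).image (fun D => ∏ p ∈ D, p)).biUnion Nat.primeFactors = ∅ := by
        rw [← subset_empty]
        exact hPe ▸ h4
      rw [this, sum_empty]
      exact mul_nonneg (Nat.cast_nonneg _) (Real.rpow_nonneg hr0 _)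
    · have hP0 : (0 : ℝ) < P.card := by exact_mod_cast hPne.card_pos
      calc _ ≤ ∑ p ∈ P, rB r p ^ (1 + 1 / (C : ℝ)) := by
            refine sum_le_sum_of_subset_of_nonneg h4 fun p hp _ => Real.rpow_nonneg ?_ _
            rw [rB_prime _ _ (hP p hp)]
            exact hr0
        _ = ∑ _p ∈ P, r * r ^ (1 / (C : ℝ)) := by
            refine sum_congr rfl fun p hp => ?_
            rw [rB_prime _ _ (hP p hp)]
            rcases hr0.eq_or_lt with h0 | h0
            · rw [← h0, Real.zero_rpow (by positivity), zero_mul]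
            · rw [Real.rpow_add h0, Real.rpow_one]
        _ = t * r ^ (1 / (C : ℝ)) := by
            rw [sum_const, nsmul_eq_mul, ← mul_assoc]
            congr 1
            rw [hr]
            field_simp
  refine h3.trans (add_le_add le_rfl (mul_le_mul_of_nonneg_right (mul_le_mul_of_nonneg_right
    (mul_le_mul_of_nonneg_left ?_ (by positivity)) (Nat.cast_nonneg _)) (by positivity)))
  exact Real.exp_le_exp.2 (mul_le_mul_of_nonneg_left hsum hC'.le)

open Classical in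
/-- **D3.** -/
theorem divisor_form (k : ℕ) : ∃ C : ℕ, 0 < C ∧
    ∀ (n t : ℕ) (W : Finset ℤ), 0 < n → 2 * t ≤ n.primeFactors.card → W.Nonempty →
    (0 : ℤ) ∉ W → ∃ d : ℕ, d ∣ n ∧ Squarefree d ∧ d.primeFactors.card = t ∧
      ∀ (A : Finset ℤ) (M : ℕ), (∀ a ∈ A, ∃ w ∈ W, ∃ e : ℕ, e ∣ d ∧ a = w * e) →
      (∀ e : ℕ, e ∣ d → (A.filter (fun a => ∃ w ∈ W, a = w * (e : ℤ))).card ≤ M) →
      (A.card : ℝ) ^ k ≤ (k.factorial : ℝ) * ((ks k A).card : ℝ) +
        C * (W.card : ℝ) ^ C *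
        Real.exp (C * (t * ((t : ℝ) / n.primeFactors.card) ^ (1 / (C : ℝ)))) *
        M * (A.card : ℝ) ^ (k - 1) := by
  obtain ⟨C, hC, h⟩ := subcube k
  obtain ⟨C2, hC2⟩ : ∃ C2 : ℕ, C2 = C * 2 ^ C := ⟨_, rfl⟩
  have hCC2 : C ≤ C2 := by
    rw [hC2]
    exact Nat.le_mul_of_pos_right _ (by positivity)
  have hC' : (0 : ℝ) < C := by exact_mod_cast hC
  refine ⟨C2, lt_of_lt_of_le hC hCC2, fun n t W hn ht hW h0 => ?_⟩
  have hP : ∀ p ∈ n.primeFactors, p.Prime := fun p hp => Nat.prime_of_mem_primeFactors hp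
  have h1 := h n.primeFactors t W (1 / 2) hP ht hW h0 (by norm_num) (by norm_num)
  have htc : t ≤ n.primeFactors.card := by omega
  have hpos : 0 < (n.primeFactors.powersetCard t).card := by
    rw [card_powersetCard]
    exact Nat.choose_pos htc
  have h3 : ∃ D ∈ n.primeFactors.powersetCard t, ∀ (A : Finset ℤ) (M : ℕ),
      (∀ a ∈ A, ∃ w ∈ W, ∃ d : ℕ, d ∣ ∏ p ∈ D, p ∧ a = w * d) →
      (∀ d : ℕ, d ∣ ∏ p ∈ D, p → (A.filter (fun a => ∃ w ∈ W, a = w * (d : ℤ))).card ≤ M) →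
      (A.card : ℝ) ^ k ≤ (k.factorial : ℝ) * ((ks k A).card : ℝ) +
        C * ((W.card : ℝ) / (1 / 2)) ^ C *
        Real.exp (C * (t * ((t : ℝ) / n.primeFactors.card) ^ (1 / (C : ℝ)))) *
        M * (A.card : ℝ) ^ (k - 1) := by
    by_contra hcon
    push Not at hcon
    have h5 : ((n.primeFactors.powersetCard t).card : ℝ) ≤
        1 / 2 * (n.primeFactors.powersetCard t).card := by
      refine le_trans (Nat.cast_le.2 (card_le_card fun D hD => ?_)) h1
      refine mem_filter.2 ⟨hD, ?_⟩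
      intro hall
      obtain ⟨A, M, h6, h7, h8⟩ := hcon D hD
      exact absurd (hall A M h6 h7) (not_le.2 h8)
    have h6 : (0 : ℝ) < (n.primeFactors.powersetCard t).card := by exact_mod_cast hpos
    linarith
  obtain ⟨D, hD, hgood⟩ := h3
  rw [mem_powersetCard] at hD
  have hDp : ∀ p ∈ D, p.Prime := fun p hp => hP p (hD.1 hp)
  refine ⟨∏ p ∈ D, p, ?_, sqfree_prod D hDp, ?_, ?_⟩
  · exact (Finset.prod_dvd_prod_of_subset _ _ _ hD.1).trans (Nat.prod_primeFactors_dvd n)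
  · rw [prod_primeFactors D hDp, hD.2]
  · intro A M hA hM
    refine (hgood A M hA hM).trans (add_le_add le_rfl (mul_le_mul_of_nonneg_right
      (mul_le_mul_of_nonneg_right ?_ (Nat.cast_nonneg _)) (by positivity)))
    have hw1 : (1 : ℝ) ≤ W.card := by exact_mod_cast hW.card_pos
    have e1 : C * ((W.card : ℝ) / (1 / 2)) ^ C ≤ C2 * (W.card : ℝ) ^ C2 := by
      have e2 : (W.card : ℝ) / (1 / 2) = 2 * W.card := by ring
      rw [e2, mul_pow, ← mul_assoc]
      have e3 : (C : ℝ) * 2 ^ C = C2 := by rw [hC2]; push_cast; ring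
      rw [e3]
      exact mul_le_mul_of_nonneg_left (pow_le_pow_right₀ hw1 hCC2) (Nat.cast_nonneg _)
    refine mul_le_mul e1 ?_ (Real.exp_pos _).le (by positivity)
    refine Real.exp_le_exp.2 ?_
    have hr0 : (0 : ℝ) ≤ (t : ℝ) / n.primeFactors.card := by positivity
    have hr1 : (t : ℝ) / n.primeFactors.card ≤ 1 := by
      rcases Nat.eq_zero_or_pos n.primeFactors.card with h9 | h9
      · rw [h9, Nat.cast_zero, div_zero]
        exact zero_le_one
      · rw [div_le_one (by exact_mod_cast h9)]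
        exact_mod_cast htc
    have e4 : ((t : ℝ) / n.primeFactors.card) ^ (1 / (C : ℝ)) ≤
        ((t : ℝ) / n.primeFactors.card) ^ (1 / (C2 : ℝ)) := by
      have e5 : 1 / (C2 : ℝ) ≤ 1 / (C : ℝ) :=
        one_div_le_one_div_of_le hC' (by exact_mod_cast hCC2)
      rcases hr0.eq_or_lt with h9 | h9
      · have hC2' : (0 : ℝ) < C2 := lt_of_lt_of_le hC' (by exact_mod_cast hCC2)
        rw [← h9, Real.zero_rpow (by positivity), Real.zero_rpow (by positivity)]
      · exact Real.rpow_le_rpow_of_exponent_ge h9 hr1 e5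
    have hr6 := Real.rpow_nonneg hr0 (1 / (C : ℝ))
    have hCC : (C : ℝ) ≤ C2 := by exact_mod_cast hCC2
    exact mul_le_mul hCC (mul_le_mul_of_nonneg_left e4 (Nat.cast_nonneg _))
      (mul_nonneg (Nat.cast_nonneg _) hr6) (Nat.cast_nonneg _)

end Pool.Agent.Helper79.AD
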